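import Pool.Agent.STD.Defs
import Pool.Agent.STH.Tup

/-!
# STD, module Den: from grids to boxes
-/

set_option autoImplicit false

namespace Pool.Agent.STD

open Finset Pool.Agent.STH

private theorem mix_mix {n : ℕ} (W : Finset (Fin n)) (x y : Pt n) (c d : Pt n) :
    mix W (mix W x c) (mix Wᶜ y d) = mix W x y := by
  funext i
  unfold mix
  by_cases h : i ∈ W
  · simp [h]
  · simp [h]

private theorem mix_eq {n : ℕ} (W : Finset (Fin n)) (x : Pt n) : mix W x x = x := by
  funext i
  unfold mix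
  split_ifs <;> rfl

/-- tuples inside a set, with the hypothesis on balls -/
private theorem tup {n p t : ℕ} (Yy : Finset (Pt n)) (B : ℝ) (hB : BallLe n t B)
    (h : 2 * (p : ℝ) * B ≤ (Yy.card : ℝ)) :
    ((Yy.card : ℝ) / 2) ^ p ≤
      ((Nat.card {z : Fin p → Pt n // (∀ i, z i ∈ Yy) ∧ ∀ i j, i ≠ j → t ≤ dist (z i) (z j)} : ℕ) :
        ℝ) := by
  classical
  refine thm_Tup n p t Yy B ?_ h
  intro x _
  refine le_trans ?_ (hB x)
  have h1 : (Yy.filter fun x' => dist x x' < t).card ≤ Nat.card {x' : Pt n // dist x x' < t} := by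
    rw [Nat.card_eq_fintype_card, Fintype.card_subtype]
    apply card_le_card
    intro y hy
    rw [mem_filter] at hy ⊢
    exact ⟨mem_univ _, hy.2⟩
  exact_mod_cast h1

theorem thm_Den : St_Den := by
  classical
  intro n r t F B S hr hB hgrid hball hS W T hbox hX hY
  by_contra hcon
  rw [not_le] at hcon
  have hB0 : 0 < B := lt_of_lt_of_le one_pos hB
  have hr0 : (1 : ℝ) ≤ r := by exact_mod_cast hr
  have h8 : (0 : ℝ) < 8 ^ r := by positivity
  obtain ⟨X, hXdef⟩ : ∃ X : Finset (Pt n), X = T.image fun x => mix W x fun _ => false := ⟨_, rfl⟩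
  obtain ⟨Y, hYdef⟩ : ∃ Y : Finset (Pt n), Y = T.image fun x => mix Wᶜ x fun _ => false :=
    ⟨_, rfl⟩
  have hXc : (S : ℝ) < X.card := by
    have h1 : S < X.card := by rw [hXdef]; exact hX
    exact_mod_cast h1
  have hYc : (S : ℝ) < Y.card := by
    have h1 : S < Y.card := by rw [hYdef]; exact hY
    exact_mod_cast h1
  have hSB : 8 * (8 ^ r * (r * B)) ≤ (S : ℝ) := by
    have e : (8 : ℝ) ^ (r + 1) * r * B = 8 * (8 ^ r * (r * B)) := by ring
    rw [← e]; exact hS
  have hrB : 0 < (r : ℝ) * B := by positivity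
  have h81 : (1 : ℝ) ≤ 8 ^ r := one_le_pow₀ (by norm_num)
  have hSB2 : 8 * ((r : ℝ) * B) ≤ S := by
    have : (r : ℝ) * B ≤ 8 ^ r * (r * B) := by nlinarith
    linarith
  -- the box
  have hXmem : ∀ p ∈ X, ∃ x ∈ T, p = mix W x fun _ => false := by
    intro p hp
    rw [hXdef, mem_image] at hp
    obtain ⟨x, hx, he⟩ := hp
    exact ⟨x, hx, he.symm⟩
  have hYmem : ∀ q ∈ Y, ∃ y ∈ T, q = mix Wᶜ y fun _ => false := by
    intro q hq
    rw [hYdef, mem_image] at hq
    obtain ⟨x, hx, he⟩ := hq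
    exact ⟨x, hx, he.symm⟩
  have hTXY : T = (X ×ˢ Y).image fun pq => mix W pq.1 pq.2 := by
    ext x
    rw [mem_image]
    constructor
    · intro hx
      refine ⟨(mix W x fun _ => false, mix Wᶜ x fun _ => false), ?_, ?_⟩
      · rw [mem_product, hXdef, hYdef]
        exact ⟨mem_image_of_mem _ hx, mem_image_of_mem _ hx⟩
      · rw [mix_mix, mix_eq]
    · rintro ⟨⟨p, q⟩, hpq, he⟩
      rw [mem_product] at hpq
      obtain ⟨a, ha, hpa⟩ := hXmem p hpq.1
      obtain ⟨b, hb, hqb⟩ := hYmem q hpq.2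
      have e1 : x = mix W a b := by
        rw [← he]
        show mix W p q = _
        have hpa' : p = mix W a fun _ => false := hpa
        have hqb' : q = mix Wᶜ b fun _ => false := hqb
        rw [hpa', hqb', mix_mix]
      rw [e1]
      exact hbox a ha b hb
  have hinj : Set.InjOn (fun pq : Pt n × Pt n => mix W pq.1 pq.2) ((X ×ˢ Y : Finset _) : Set _) := by
    rintro ⟨p, q⟩ hpq ⟨p', q'⟩ hpq' he
    rw [mem_coe, mem_product] at hpq hpq'
    obtain ⟨a, -, hpa⟩ := hXmem p hpq.1
    obtain ⟨b, -, hqb⟩ := hYmem q hpq.2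
    obtain ⟨a', -, hpa'⟩ := hXmem p' hpq'.1
    obtain ⟨b', -, hqb'⟩ := hYmem q' hpq'.2
    have he' : ∀ i, mix W p q i = mix W p' q' i := fun i => congrFun he i
    rw [Prod.mk.injEq]
    constructor
    · funext i
      have h1 := he' i
      by_cases hi : i ∈ W
      · simpa [mix, hi] using h1
      · rw [hpa, hpa']; simp [mix, hi]
    · funext i
      have h1 := he' i
      by_cases hi : i ∈ W
      · rw [hqb, hqb']; simp [mix, hi]
      · simpa [mix, hi] using h1
  have hTcard : T.card = X.card * Y.card := by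
    rw [hTXY, card_image_of_injOn hinj, card_product]
  -- the degrees
  have hdeg : (T.filter F).card = ∑ q ∈ Y, (X.filter fun p => F (mix W p q)).card := by
    have h1 : T.filter F = ((X ×ˢ Y).filter fun pq => F (mix W pq.1 pq.2)).image
        fun pq => mix W pq.1 pq.2 := by
      ext x
      rw [mem_filter, mem_image]
      constructor
      · rintro ⟨hx, hF⟩
        rw [hTXY, mem_image] at hx
        obtain ⟨pq, h2, h3⟩ := hx
        refine ⟨pq, mem_filter.2 ⟨h2, ?_⟩, h3⟩
        rw [h3]; exact hF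
      · rintro ⟨pq, h2, h3⟩
        rw [mem_filter] at h2
        refine ⟨?_, ?_⟩
        · rw [hTXY]; exact mem_image.2 ⟨pq, h2.1, h3⟩
        · rw [← h3]; exact h2.2
    rw [h1, card_image_of_injOn (hinj.mono (by
      rw [coe_subset]; exact filter_subset _ _))]
    rw [card_filter, sum_product_right]
    apply sum_congr rfl
    intro q _
    rw [card_filter]
  let Yg : Finset (Pt n) := Y.filter fun q =>
    (X.card : ℝ) / 4 ≤ ((X.filter fun p => F (mix W p q)).card : ℝ)
  have hX0 : (0 : ℝ) < X.card := lt_of_le_of_lt (Nat.cast_nonneg S) hXc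
  have hYg : (Y.card : ℝ) / 4 < Yg.card := by
    have h1 : ((T.filter F).card : ℝ) ≤ Yg.card * X.card + Y.card * (X.card / 4) := by
      rw [hdeg]
      push_cast
      have h2 : ∀ q ∈ Y, ((X.filter fun p => F (mix W p q)).card : ℝ) ≤
          (if q ∈ Yg then (X.card : ℝ) else 0) + X.card / 4 := by
        intro q hq
        by_cases hg : q ∈ Yg
        · rw [if_pos hg]
          have h3 : ((X.filter fun p => F (mix W p q)).card : ℝ) ≤ X.card := by
            exact_mod_cast card_filter_le _ _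
          linarith
        · rw [if_neg hg]
          have h3 : ¬ (X.card : ℝ) / 4 ≤ ((X.filter fun p => F (mix W p q)).card : ℝ) := by
            intro h4
            exact hg (mem_filter.2 ⟨hq, h4⟩)
          linarith [not_le.1 h3]
      refine (sum_le_sum h2).trans (le_of_eq ?_)
      rw [sum_add_distrib, sum_const, nsmul_eq_mul, ← sum_filter, sum_const, nsmul_eq_mul]
      rw [filter_mem_eq_inter, inter_eq_right.2 (filter_subset _ _)]
    have h2 : (T.card : ℝ) < 2 * ((T.filter F).card : ℝ) := by exact_mod_cast hcon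
    rw [hTcard] at h2
    push_cast at h2
    have h3 : (X.card : ℝ) * (Y.card / 4) < X.card * Yg.card := by nlinarith
    exact lt_of_mul_lt_mul_left h3 hX0.le
  -- the tuples
  let TT : Finset (Fin r → Pt n) := Fintype.piFinset fun _ => X
  have hTT : (TT.card : ℝ) = (X.card : ℝ) ^ r := by
    have : TT.card = X.card ^ r := by
      rw [Fintype.card_piFinset_const]
    exact_mod_cast this
  let Rel : (Fin r → Pt n) → Pt n → Prop := fun z q =>
    (∀ i, F (mix W (z i) q)) ∧ ∀ i j, i ≠ j → t ≤ dist (z i) (z j)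
  have hA : ∀ q ∈ Yg, ((X.card : ℝ) / 8) ^ r ≤ ((TT.filter fun z => Rel z q).card : ℝ) := by
    intro q hq
    have hq2 := (mem_filter.1 hq).2
    have h0 : 2 * (r : ℝ) * B = 2 * (r * B) := by ring
    have h1 := tup (p := r) (t := t) (X.filter fun p => F (mix W p q)) B hball (by
      rw [h0]
      linarith)
    have h2 : ((X.card : ℝ) / 8) ^ r ≤
        (((X.filter fun p => F (mix W p q)).card : ℝ) / 2) ^ r := by
      apply pow_le_pow_left₀ (div_nonneg hX0.le (by norm_num))
      linarith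
    refine (h2.trans h1).trans ?_
    have h3 : Nat.card {z : Fin r → Pt n // (∀ i, z i ∈ X.filter fun p => F (mix W p q)) ∧
        ∀ i j, i ≠ j → t ≤ dist (z i) (z j)} ≤ (TT.filter fun z => Rel z q).card := by
      rw [Nat.card_eq_fintype_card, Fintype.card_subtype]
      apply card_le_card
      intro z hz
      rw [mem_filter] at hz ⊢
      obtain ⟨-, hz1, hz2⟩ := hz
      refine ⟨Fintype.mem_piFinset.2 fun i => (mem_filter.1 (hz1 i)).1,
        fun i => (mem_filter.1 (hz1 i)).2, hz2⟩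
    exact_mod_cast h3
  -- the pigeonhole principle
  obtain ⟨z, hz, hzc⟩ : ∃ z ∈ TT, 2 * (r : ℝ) * B < ((Yg.filter fun q => Rel z q).card : ℝ) := by
    by_contra hno
    push Not at hno
    have h1 : ∑ q ∈ Yg, ((TT.filter fun z => Rel z q).card : ℝ) =
        ∑ z ∈ TT, ((Yg.filter fun q => Rel z q).card : ℝ) := by
      have h2 : ∑ q ∈ Yg, (TT.filter fun z => Rel z q).card =
          ∑ z ∈ TT, (Yg.filter fun q => Rel z q).card := by
        simp only [card_filter]
        rw [sum_comm]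
      exact_mod_cast h2
    have h2 : (Yg.card : ℝ) * ((X.card : ℝ) / 8) ^ r ≤
        ∑ q ∈ Yg, ((TT.filter fun z => Rel z q).card : ℝ) := by
      rw [← nsmul_eq_mul, ← sum_const]
      exact sum_le_sum hA
    have h3 : ∑ z ∈ TT, ((Yg.filter fun q => Rel z q).card : ℝ) ≤
        (X.card : ℝ) ^ r * (2 * r * B) := by
      rw [← hTT, ← nsmul_eq_mul, ← sum_const]
      exact sum_le_sum hno
    have h4 : (Yg.card : ℝ) * ((X.card : ℝ) / 8) ^ r ≤ (X.card : ℝ) ^ r * (2 * r * B) := by
      rw [h1] at h2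
      exact h2.trans h3
    rw [div_pow] at h4
    have hXr : (0 : ℝ) < (X.card : ℝ) ^ r := pow_pos hX0 r
    have h5 : (Yg.card : ℝ) ≤ 8 ^ r * (2 * r * B) := by
      have h6 : (X.card : ℝ) ^ r * (Yg.card / 8 ^ r) ≤ (X.card : ℝ) ^ r * (2 * r * B) := by
        have e : (X.card : ℝ) ^ r * (Yg.card / 8 ^ r) =
          (Yg.card : ℝ) * ((X.card : ℝ) ^ r / 8 ^ r) := by ring
        rw [e]; exact h4
      have h7 := le_of_mul_le_mul_left h6 hXr
      rw [div_le_iff₀ h8] at h7
      linarith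
    have e2 : (8 : ℝ) ^ r * (2 * r * B) = 2 * (8 ^ r * (r * B)) := by ring
    rw [e2] at h5
    linarith
  -- the tuple on the other side
  have hpos : 0 < Nat.card {w : Fin r → Pt n // (∀ i, w i ∈ Yg.filter fun q => Rel z q) ∧
      ∀ i j, i ≠ j → t ≤ dist (w i) (w j)} := by
    have h1 := tup (p := r) (t := t) (Yg.filter fun q => Rel z q) B hball hzc.le
    have h2 : (0 : ℝ) < (((Yg.filter fun q => Rel z q).card : ℝ) / 2) ^ r := by
      apply pow_pos
      have e2 : 2 * (r : ℝ) * B = 2 * (r * B) := by ring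
      rw [e2] at hzc
      linarith
    exact_mod_cast lt_of_lt_of_le h2 h1
  obtain ⟨⟨w, hw1, hw2⟩⟩ := (Nat.card_pos_iff.1 hpos).1
  have hzX : ∀ i, z i ∈ X := fun i => Fintype.mem_piFinset.1 hz i
  have hr' : 0 < r := hr
  have hzsep : ∀ i j, i ≠ j → t ≤ dist (z i) (z j) := (mem_filter.1 (hw1 ⟨0, hr'⟩)).2.2
  have hoff1 : ∀ p ∈ X, ∀ i, i ∉ W → p i = false := by
    intro p hp i hi
    obtain ⟨a, -, hpa⟩ := hXmem p hp
    rw [hpa]; simp [mix, hi]
  have hoff2 : ∀ q ∈ Y, ∀ i, i ∈ W → q i = false := by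
    intro q hq i hi
    obtain ⟨a, -, hqa⟩ := hYmem q hq
    rw [hqa]; simp [mix, hi]
  obtain ⟨i, j, hij⟩ := hgrid W z w (by
    intro i j hij
    refine (hzsep i j hij).trans ?_
    unfold STH.dist dOff
    apply card_le_card
    intro l hl
    rw [mem_filter] at hl ⊢
    refine ⟨mem_univ _, ?_, hl.2⟩
    rw [mem_compl, not_not]
    by_contra hlW
    exact hl.2 (by rw [hoff1 _ (hzX i) l hlW, hoff1 _ (hzX j) l hlW])) (by
    intro i j hij
    refine (hw2 i j hij).trans ?_
    unfold STH.dist dOff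
    apply card_le_card
    intro l hl
    rw [mem_filter] at hl ⊢
    refine ⟨mem_univ _, ?_, hl.2⟩
    intro hlW
    have hY1 : ∀ i, w i ∈ Y := fun i => (mem_filter.1 (mem_filter.1 (hw1 i)).1).1
    exact hl.2 (by rw [hoff2 _ (hY1 i) l hlW, hoff2 _ (hY1 j) l hlW]))
  exact hij ((mem_filter.1 (hw1 j)).2.1 i)

end Pool.Agent.STD
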