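import Pool.Agent.STD.Defs

/-!
# Boxes in the cube
-/

set_option autoImplicit false

namespace Pool.Agent.STD

open Finset Pool.Agent.STH

variable {n : ℕ}

/-- restriction to `W` -/
def rs (W : Finset (Fin n)) (x : Pt n) : Pt n := mix W x fun _ => false

lemma cw_def (W : Finset (Fin n)) (T : Finset (Pt n)) : cw W T = (T.image (rs W)).card := rfl

lemma rs_eq_iff (W : Finset (Fin n)) (x y : Pt n) : rs W x = rs W y ↔ ∀ i ∈ W, x i = y i := by
  constructor
  · intro h i hi
    have := congrFun h i
    simpa [rs, mix, hi] using this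
  · intro h
    funext i
    by_cases hi : i ∈ W
    · simp [rs, mix, hi, h i hi]
    · simp [rs, mix, hi]

lemma cw_mono (W : Finset (Fin n)) {T T' : Finset (Pt n)} (h : T ⊆ T') : cw W T ≤ cw W T' :=
  card_le_card (image_subset_image h)

lemma cw_univ (T : Finset (Pt n)) : cw univ T = T.card := by
  rw [cw_def, card_image_of_injective]
  intro x y h
  rw [rs_eq_iff] at h
  funext i
  exact h i (mem_univ i)

lemma cw_union_le (W W' : Finset (Fin n)) (T : Finset (Pt n)) :
    cw (W ∪ W') T ≤ cw W T * cw W' T := by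
  rw [cw_def, cw_def, cw_def, ← card_product]
  refine card_le_card_of_injOn (fun p => (rs W p, rs W' p)) ?_ ?_
  · intro p hp
    simp only [coe_image, Set.mem_image, mem_coe] at hp
    obtain ⟨x, hx, rfl⟩ := hp
    simp only [coe_product, Set.mem_prod, mem_coe, mem_image]
    refine ⟨⟨x, hx, ?_⟩, ⟨x, hx, ?_⟩⟩
    · rw [rs_eq_iff]
      intro i hi
      simp [rs, mix, hi]
    · rw [rs_eq_iff]
      intro i hi
      simp [rs, mix, hi]
  · intro p hp p' hp' h
    simp only [coe_image, Set.mem_image, mem_coe] at hp hp'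
    obtain ⟨x, hx, rfl⟩ := hp
    obtain ⟨x', hx', rfl⟩ := hp'
    simp only [Prod.mk.injEq, rs_eq_iff] at h
    rw [rs_eq_iff]
    intro i hi
    rcases mem_union.1 hi with h1 | h1
    · have := h.1 i h1
      simpa [rs, mix, h1] using this
    · have := h.2 i h1
      simpa [rs, mix, h1] using this

lemma cw_mono_left {W W' : Finset (Fin n)} (h : W ⊆ W') (T : Finset (Pt n)) :
    cw W T ≤ cw W' T := by
  rw [cw_def, cw_def]
  have : T.image (rs W) = (T.image (rs W')).image (rs W) := by
    rw [image_image]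
    refine image_congr ?_
    intro x _
    simp only [Function.comp]
    rw [rs_eq_iff]
    intro i hi
    simp [rs, mix, h hi]
  rw [this]
  exact card_image_le

lemma cw_empty_le (T : Finset (Pt n)) : cw (∅ : Finset (Fin n)) T ≤ 1 := by
  rw [cw_def]
  refine card_le_one.2 ?_
  intro a ha b hb
  obtain ⟨x, _, rfl⟩ := mem_image.1 ha
  obtain ⟨y, _, rfl⟩ := mem_image.1 hb
  rw [rs_eq_iff]
  simp

lemma cw_insert_le (i : Fin n) (W : Finset (Fin n)) (T : Finset (Pt n)) :
    cw (insert i W) T ≤ 2 * cw W T := by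
  have h1 : cw ({i} : Finset (Fin n)) T ≤ 2 := by
    rw [cw_def]
    calc (T.image (rs {i})).card ≤ ((univ : Finset Bool).image fun b => rs {i} fun _ => b).card := by
          refine card_le_card ?_
          intro p hp
          obtain ⟨x, _, rfl⟩ := mem_image.1 hp
          refine mem_image.2 ⟨x i, mem_univ _, ?_⟩
          rw [rs_eq_iff]
          intro j hj
          rw [mem_singleton.1 hj]
      _ ≤ (univ : Finset Bool).card := card_image_le
      _ = 2 := by simp
  have := cw_union_le {i} W T
  rw [← insert_eq] at this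
  calc cw (insert i W) T ≤ cw {i} T * cw W T := this
    _ ≤ 2 * cw W T := Nat.mul_le_mul_right _ h1

lemma cw_le_pow (W : Finset (Fin n)) (T : Finset (Pt n)) : cw W T ≤ 2 ^ W.card := by
  induction W using Finset.induction_on with
  | empty => simpa using cw_empty_le T
  | insert i W hi ih =>
    rw [card_insert_of_notMem hi, pow_succ, mul_comm]
    exact (cw_insert_le i W T).trans (Nat.mul_le_mul_left _ ih)

/-- `T` is closed under changes on `E`. -/
def Cl (E : Finset (Fin n)) (T : Finset (Pt n)) : Prop := ∀ x ∈ T, ∀ y, Off E x y → y ∈ T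

lemma mix_off (E : Finset (Fin n)) (z x : Pt n) : Off E x (mix E z x) := by
  intro i hi
  simp [mix, hi]

lemma cw_full {E : Finset (Fin n)} {T : Finset (Pt n)} (h : Cl E T) (hT : T.Nonempty) :
    2 ^ E.card ≤ cw E T := by
  obtain ⟨x, hx⟩ := hT
  have h1 : 2 ^ E.card = (univ.image (rs E)).card := by
    have : (univ.image (rs E)).card = Fintype.card (E → Bool) := by
      rw [← card_univ]
      refine card_bij' (fun p _ => fun i : E => p i.1)
        (fun q _ => fun i => if hi : i ∈ E then q ⟨i, hi⟩ else false) ?_ ?_ ?_ ?_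
      · intro p _
        exact mem_univ _
      · intro q _
        refine mem_image.2 ⟨fun i => if hi : i ∈ E then q ⟨i, hi⟩ else false, mem_univ _, ?_⟩
        funext i
        by_cases hi : i ∈ E <;> simp [rs, mix, hi]
      · intro p hp
        obtain ⟨y, _, rfl⟩ := mem_image.1 hp
        funext i
        by_cases hi : i ∈ E <;> simp [rs, mix, hi]
      · intro q _
        funext i
        simp
    rw [this]
    simp
  rw [h1, cw_def]
  refine card_le_card ?_
  intro p hp
  obtain ⟨y, _, rfl⟩ := mem_image.1 hp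
  refine mem_image.2 ⟨mix E y x, h x hx _ (mix_off E y x), ?_⟩
  rw [rs_eq_iff]
  intro i hi
  simp [mix, hi]

open Classical in
/-- the cut lemma -/
lemma cut {F : Pt n → Prop} {S : ℕ} (hS : 1 ≤ S) (hF : Dense F S) {E : Finset (Fin n)}
    {T : Finset (Pt n)} (h : Cl E T) :
    cw E T ≤ S ∨ 2 * (T.filter F).card ≤ T.card ∨ T.card ≤ 2 * S ^ 2 := by
  rcases T.eq_empty_or_nonempty with rfl | hT
  · right; right; simp
  by_cases h2 : 2 ^ E.card ≤ S
  · left
    exact (cw_le_pow E T).trans h2
  right
  push Not at h2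
  have hd : Nat.log 2 S + 1 ≤ E.card := by
    have := Nat.log_lt_of_lt_pow (by omega) h2
    omega
  obtain ⟨E', hE', hc⟩ := exists_subset_card_eq hd
  have hcl : Cl E' T := by
    intro x hx y hy
    refine h x hx y ?_
    intro i hi
    exact hy i fun h' => hi (hE' h')
  have h3 : S < 2 ^ E'.card := by
    rw [hc]
    exact Nat.lt_pow_succ_log_self (by norm_num) S
  have h4 : 2 ^ E'.card ≤ 2 * S := by
    rw [hc, pow_succ, mul_comm]
    exact Nat.mul_le_mul_left _ (Nat.pow_log_le_self 2 (by omega))
  by_cases h5 : cw E'ᶜ T ≤ S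
  · right
    calc T.card = cw (E' ∪ E'ᶜ) T := by rw [union_compl, cw_univ]
      _ ≤ cw E' T * cw E'ᶜ T := cw_union_le _ _ _
      _ ≤ (2 * S) * S := Nat.mul_le_mul ((cw_le_pow _ _).trans h4) h5
      _ = 2 * S ^ 2 := by ring
  · left
    refine hF E' T ?_ (h3.trans_le (cw_full hcl hT)) (by omega)
    intro x hx y hy
    exact hcl y hy _ (mix_off E' x y)

open Classical in
/-- a thin box is small, or at most half of its points are models. -/
lemma piece {F : Pt n → Prop} {S : ℕ} (hS : 1 ≤ S) (hF : Dense F S) {X Y E : Finset (Fin n)}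
    {T : Finset (Pt n)} (hu : X ∪ Y ∪ E = univ) (hX : cw X T ≤ S) (hY : cw Y T ≤ S)
    (h : Cl E T) : 2 * (T.filter F).card ≤ T.card ∨ T.card ≤ 2 * S ^ 3 := by
  rcases cut hS hF h with h1 | h1 | h1
  · right
    calc T.card = cw (X ∪ Y ∪ E) T := by rw [hu, cw_univ]
      _ ≤ cw (X ∪ Y) T * cw E T := cw_union_le _ _ _
      _ ≤ (cw X T * cw Y T) * cw E T := Nat.mul_le_mul_right _ (cw_union_le _ _ _)
      _ ≤ (S * S) * S := Nat.mul_le_mul (Nat.mul_le_mul hX hY) h1
      _ ≤ 2 * S ^ 3 := by nlinarith [pow_pos (show 0 < S by omega) 3]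
  · exact Or.inl h1
  · right
    refine h1.trans (Nat.mul_le_mul_left _ (Nat.pow_le_pow_right (by omega) (by norm_num)))

end Pool.Agent.STD
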