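import Pool.Agent.STD.Defs
import Pool.Agent.STH.Cls

/-!
# Few formulas have a separated grid of models
-/

set_option autoImplicit false

namespace Pool.Agent.STD

open Finset Pool.Agent.STH

/-- mixed points with different parts on `W` -/
private theorem Grd_dist1 {n : ℕ} (W : Finset (Fin n)) (x x' y y' : Pt n) :
    dOff Wᶜ x x' ≤ dist (mix W x y) (mix W x' y') := by
  unfold dOff STH.dist
  apply card_le_card
  intro i hi
  rw [mem_filter] at hi ⊢
  obtain ⟨_, h1, h2⟩ := hi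
  have h3 : i ∈ W := by
    rw [mem_compl, not_not] at h1
    exact h1
  refine ⟨mem_univ _, ?_⟩
  unfold mix
  rw [if_pos h3, if_pos h3]
  exact h2

/-- mixed points with different parts off `W` -/
private theorem Grd_dist2 {n : ℕ} (W : Finset (Fin n)) (x x' y y' : Pt n) :
    dOff W y y' ≤ dist (mix W x y) (mix W x' y') := by
  unfold dOff STH.dist
  apply card_le_card
  intro i hi
  rw [mem_filter] at hi ⊢
  obtain ⟨_, h1, h2⟩ := hi
  refine ⟨mem_univ _, ?_⟩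
  unfold mix
  rw [if_neg h1, if_neg h1]
  exact h2

/-- the number of formulas for one grid -/
private theorem Grd_one {n k M r t : ℕ} {τ : ℝ} (hn : 0 < n) (htn : t ≤ n) (hτt : τ * n ≤ t)
    (hr : (r : ℝ) ^ 4 * (1 - τ) ^ k ≤ 1) (W : Finset (Fin n)) (x y : Fin r → Pt n)
    (hx : ∀ i j, i ≠ j → t ≤ dOff Wᶜ (x i) (x j)) (hy : ∀ i j, i ≠ j → t ≤ dOff W (y i) (y j)) :
    ((Nat.card {ω : Fm n k M // ∀ i j, Mod ω (mix W (x i) (y j))} : ℕ) : ℝ) ≤
      (2 * (n : ℝ)) ^ (k * M) * Real.exp (-((M : ℝ) * ((r : ℝ) ^ 2 - 1 / 2) / 2 ^ k)) := by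
  have hn' : (0 : ℝ) < n := by exact_mod_cast hn
  have h1 := thm_Cls n k M (r * r) t (fun e => mix W (x (finProdFinEquiv.symm e).1)
    (y (finProdFinEquiv.symm e).2)) hn htn ?_ ?_
  · have h2 : Nat.card {ω : Fm n k M // ∀ i j, Mod ω (mix W (x i) (y j))} ≤
        Nat.card {ω : Fm n k M // ∀ e : Fin (r * r), Mod ω (mix W (x (finProdFinEquiv.symm e).1)
          (y (finProdFinEquiv.symm e).2))} :=
      Nat.card_le_card_of_injective (fun ω => ⟨ω.1, fun e => ω.2 _ _⟩) fun a b hab =>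
        Subtype.ext (congrArg (fun z => z.1) hab)
    have h3 : ((Nat.card {ω : Fm n k M // ∀ i j, Mod ω (mix W (x i) (y j))} : ℕ) : ℝ) ≤
        ((Nat.card {ω : Fm n k M // ∀ e : Fin (r * r),
          Mod ω (mix W (x (finProdFinEquiv.symm e).1) (y (finProdFinEquiv.symm e).2))} : ℕ) : ℝ) := by
      exact_mod_cast h2
    refine h3.trans (h1.trans (le_of_eq ?_))
    push_cast
    rw [← pow_two]
  · intro e e' hne
    have h2 : finProdFinEquiv.symm e ≠ finProdFinEquiv.symm e' := fun h =>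
      hne (finProdFinEquiv.symm.injective h)
    by_cases h3 : (finProdFinEquiv.symm e).1 = (finProdFinEquiv.symm e').1
    · have h4 : (finProdFinEquiv.symm e).2 ≠ (finProdFinEquiv.symm e').2 := fun h =>
        h2 (Prod.ext h3 h)
      exact (hy _ _ h4).trans (Grd_dist2 W _ _ _ _)
    · exact (hx _ _ h3).trans (Grd_dist1 W _ _ _ _)
  · have h2 : τ ≤ (t : ℝ) / n := by
      rw [le_div_iff₀ hn']
      exact hτt
    have h3 : 0 ≤ 1 - (t : ℝ) / n := by
      have : (t : ℝ) ≤ n := by exact_mod_cast htn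
      rw [sub_nonneg, div_le_one hn']
      exact this
    have h4 : (1 - (t : ℝ) / n) ^ k ≤ (1 - τ) ^ k := pow_le_pow_left₀ h3 (by linarith) k
    have h5 : (((r * r : ℕ) : ℝ)) ^ 2 = (r : ℝ) ^ 4 := by
      push_cast
      ring
    rw [h5]
    exact (mul_le_mul_of_nonneg_left h4 (by positivity)).trans hr

/-- few formulas have a separated grid of models -/
theorem thm_Grd : St_Grd := by
  classical
  intro Δ τ k r hΔ hΔ1 hτ hτ1 hΔr hk hr4
  have hr10 : (10 : ℝ) ≤ r := by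
    have h1 : Δ * (r : ℝ) ≤ 1 * r := mul_le_mul_of_nonneg_right hΔ1 (Nat.cast_nonneg r)
    linarith
  refine ⟨r ^ 2 + 1, fun n hn t M hτt htn hM => ?_⟩
  have hn0 : 0 < n := by omega
  have hn' : (0 : ℝ) < n := by exact_mod_cast hn0
  have hnr : (r : ℝ) ^ 2 ≤ n := by
    have : r ^ 2 ≤ n := by omega
    exact_mod_cast this
  -- the union bound
  obtain ⟨Sep, hSep⟩ : ∃ Sep : Finset (Fin n) × (Fin r → Pt n) × (Fin r → Pt n) → Prop,
      ∀ q, Sep q ↔ (∀ i j, i ≠ j → t ≤ dOff q.1ᶜ (q.2.1 i) (q.2.1 j)) ∧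
        (∀ i j, i ≠ j → t ≤ dOff q.1 (q.2.2 i) (q.2.2 j)) := ⟨_, fun q => Iff.rfl⟩
  obtain ⟨A, hA⟩ : ∃ A : Finset (Fin n) × (Fin r → Pt n) × (Fin r → Pt n) → Finset (Fm n k M),
      ∀ q, A q = univ.filter fun ω => ∀ i j, Mod ω (mix q.1 (q.2.1 i) (q.2.2 j)) :=
    ⟨_, fun q => rfl⟩
  obtain ⟨B, hB⟩ : ∃ B : ℝ, B = (2 * (n : ℝ)) ^ (k * M) *
      Real.exp (-((M : ℝ) * ((r : ℝ) ^ 2 - 1 / 2) / 2 ^ k)) := ⟨_, rfl⟩
  have hB0 : 0 ≤ B := by
    rw [hB]
    positivity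
  have hAB : ∀ q, Sep q → ((A q).card : ℝ) ≤ B := by
    intro q hq
    have h1 := (hSep q).1 hq
    have h2 := Grd_one (k := k) (M := M) hn0 htn hτt hr4 q.1 q.2.1 q.2.2 h1.1 h1.2
    rw [Nat.card_eq_fintype_card, Fintype.card_subtype, ← hA q, ← hB] at h2
    exact h2
  have hsub : (univ.filter fun ω : Fm n k M => ¬ NoGrid (Mod ω) r t) ⊆
      (univ.filter Sep).biUnion A := by
    intro ω hω
    rw [mem_filter] at hω
    have h1 := hω.2
    unfold NoGrid at h1
    push Not at h1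
    obtain ⟨W, x, y, hx, hy, hm⟩ := h1
    rw [mem_biUnion]
    refine ⟨(W, x, y), ?_, ?_⟩
    · rw [mem_filter, hSep]
      exact ⟨mem_univ _, hx, hy⟩
    · rw [hA, mem_filter]
      exact ⟨mem_univ _, hm⟩
  have hcard : ((Nat.card {ω : Fm n k M // ¬ NoGrid (Mod ω) r t} : ℕ) : ℝ) ≤
      (2 : ℝ) ^ (n * (2 * r + 1)) * B := by
    rw [Nat.card_eq_fintype_card, Fintype.card_subtype]
    have h1 : (((univ.filter fun ω : Fm n k M => ¬ NoGrid (Mod ω) r t).card : ℕ) : ℝ) ≤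
        (((univ.filter Sep).biUnion A).card : ℝ) := by
      exact_mod_cast card_le_card hsub
    have h2 : ((((univ.filter Sep).biUnion A).card : ℕ) : ℝ) ≤
        ∑ q ∈ univ.filter Sep, ((A q).card : ℝ) := by
      exact_mod_cast card_biUnion_le
    have h3 : ∑ q ∈ univ.filter Sep, ((A q).card : ℝ) ≤ ∑ _q ∈ univ.filter Sep, B :=
      sum_le_sum fun q hq => hAB q (mem_filter.1 hq).2
    have h4 : ∑ _q ∈ univ.filter Sep, B ≤ (2 : ℝ) ^ (n * (2 * r + 1)) * B := by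
      rw [sum_const, nsmul_eq_mul]
      apply mul_le_mul_of_nonneg_right _ hB0
      have h5 : (univ.filter Sep).card ≤ 2 ^ (n * (2 * r + 1)) := by
        refine (card_filter_le _ _).trans (le_of_eq ?_)
        rw [card_univ, Fintype.card_prod, Fintype.card_prod, Fintype.card_finset,
          Fintype.card_fun, Fintype.card_fun, Fintype.card_fin, Fintype.card_fin,
          Fintype.card_bool, ← pow_mul, ← pow_add, ← pow_add]
        congr 1
        ring
      exact_mod_cast h5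
    linarith
  refine hcard.trans ?_
  rw [hB, ← mul_assoc, mul_comm ((2 : ℝ) ^ (n * (2 * r + 1))), mul_assoc]
  apply mul_le_mul_of_nonneg_left _ (by positivity)
  -- the exponents
  have e1 : (2 : ℝ) ^ (n * (2 * r + 1)) = Real.exp ((n * (2 * r + 1) : ℝ) * Real.log 2) := by
    rw [mul_comm (n * (2 * r + 1) : ℝ) (Real.log 2), Real.exp_mul, Real.exp_log two_pos,
      ← Real.rpow_natCast]
    push_cast
    rfl
  rw [e1, ← Real.exp_add]
  apply Real.exp_le_exp.2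
  have hlog : Real.log 2 ≤ 1 := by
    have := Real.log_two_lt_d9
    linarith
  have hM1 : Δ * n * 2 ^ k - 1 ≤ (M : ℝ) := by
    have := Nat.lt_floor_add_one (Δ * n * 2 ^ k)
    rw [← hM] at this
    linarith
  have h2k : (1 : ℝ) ≤ 2 ^ k := one_le_pow₀ one_le_two
  have hM2 : Δ * n - 1 ≤ (M : ℝ) / 2 ^ k := by
    rw [le_div_iff₀ (by positivity)]
    nlinarith
  have hr2 : 0 ≤ (r : ℝ) ^ 2 - 1 / 2 := by nlinarith
  have h5 : (Δ * n - 1) * ((r : ℝ) ^ 2 - 1 / 2) ≤ (M : ℝ) * ((r : ℝ) ^ 2 - 1 / 2) / 2 ^ k := by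
    rw [mul_div_right_comm]
    exact mul_le_mul_of_nonneg_right hM2 hr2
  have h6 : 10 * (r : ℝ) * n ≤ Δ * n * (r : ℝ) ^ 2 := by
    have : 10 * ((r : ℝ) * n) ≤ Δ * r * (r * n) :=
      mul_le_mul_of_nonneg_right hΔr (by positivity)
    nlinarith
  have h7 : Δ * n ≤ n := by nlinarith
  have h8 : (n * (2 * r + 1) : ℝ) * Real.log 2 ≤ n * (2 * r + 1) := by
    have : (n * (2 * r + 1) : ℝ) * Real.log 2 ≤ (n * (2 * r + 1)) * 1 :=
      mul_le_mul_of_nonneg_left hlog (by positivity)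
    linarith
  have h9 : 10 * (n : ℝ) ≤ r * n := mul_le_mul_of_nonneg_right hr10 hn'.le
  nlinarith

end Pool.Agent.STD
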