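import Pool.Agent.STD.Defs

/-!
# Subtraction-free circuits for the weighted model count

A circuit whose gates are sums and products of positive reals, up to constant factors, and whose
output is within a constant factor of the weighted model count of `F`, contains a DNNF for `F`.
-/

set_option autoImplicit false

namespace Pool.Agent.STD

open Finset Pool.Agent.STH

/-- A subtraction-free circuit with `s` nodes on the weights `w i b` (`i < n`, `b` a bit). Each
node is an input `w i b`, a constant `c ≥ 0`, a sum of two earlier nodes up to constant factors,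
or a product of two earlier nodes up to constant factors. -/
structure PosCircuit (n s : ℕ) where
  /-- the function computed by a node -/
  val : Fin s → (Fin n → Bool → ℝ) → ℝ
  /-- the rules -/
  ok : ∀ v : Fin s,
    (∃ (i : Fin n) (b : Bool), ∀ w, val v w = w i b) ∨
    (∃ c : ℝ, 0 ≤ c ∧ ∀ w, val v w = c) ∨
    (∃ a b : Fin s, a < v ∧ b < v ∧ ∃ α β : ℝ, 0 < α ∧ ∀ w, (∀ i b, 0 < w i b) →
      α * (val a w + val b w) ≤ val v w ∧ val v w ≤ β * (val a w + val b w)) ∨
    (∃ a b : Fin s, a < v ∧ b < v ∧ ∃ α β : ℝ, 0 < α ∧ ∀ w, (∀ i b, 0 < w i b) →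
      α * (val a w * val b w) ≤ val v w ∧ val v w ≤ β * (val a w * val b w))

open Classical in
/-- the weighted model count -/
noncomputable def wcount {n : ℕ} (F : Pt n → Prop) (w : Fin n → Bool → ℝ) : ℝ :=
  ∑ x : Fin n → Bool, if F x then ∏ i, w i (x i) else 0

/-- [Ari] -/
def St_Ari : Prop := ∀ (n s : ℕ) (C : PosCircuit n s) (r : Fin s) (F : Pt n → Prop) (α β : ℝ),
  0 < α → (∃ x, F x) →
  (∀ w : Fin n → Bool → ℝ, (∀ i b, 0 < w i b) →
    α * wcount F w ≤ C.val r w ∧ C.val r w ≤ β * wcount F w) →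
  ∃ D : Dnnf n 0 1 s, ∀ x z, D.val r x z ↔ F x

namespace Ari

variable {n s : ℕ}

/-- exponent vectors -/
abbrev Ex (n : ℕ) := Fin n → Bool → ℕ

/-- monomials -/
noncomputable def mon (m : Ex n) (w : Fin n → Bool → ℝ) : ℝ := ∏ i, ∏ b, w i b ^ m i b

lemma mon_pos (m : Ex n) {w : Fin n → Bool → ℝ} (hw : ∀ i b, 0 < w i b) : 0 < mon m w :=
  prod_pos fun i _ => prod_pos fun b _ => pow_pos (hw i b) _

lemma mon_add (m m' : Ex n) (w : Fin n → Bool → ℝ) : mon (m + m') w = mon m w * mon m' w := by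
  unfold mon
  rw [← prod_mul_distrib]
  refine prod_congr rfl fun i _ => ?_
  rw [← prod_mul_distrib]
  refine prod_congr rfl fun b _ => ?_
  rw [← pow_add]
  rfl

lemma mon_zero (w : Fin n → Bool → ℝ) : mon (0 : Ex n) w = 1 := by
  simp [mon]

/-- the monomial of an input -/
def sg (i : Fin n) (b : Bool) : Ex n := fun j c => if j = i ∧ c = b then 1 else 0

lemma mon_sg (i : Fin n) (b : Bool) (w : Fin n → Bool → ℝ) : mon (sg i b) w = w i b := by
  unfold mon sg
  rw [prod_eq_single i]
  · rw [prod_eq_single b]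
    · simp
    · intro c _ hc
      simp [hc]
    · simp
  · intro j _ hj
    simp [hj]
  · simp

/-- the monomial of a point -/
def ind (x : Pt n) : Ex n := fun i b => if x i = b then 1 else 0

lemma mon_ind (x : Pt n) (w : Fin n → Bool → ℝ) : mon (ind x) w = ∏ i, w i (x i) := by
  unfold mon ind
  refine prod_congr rfl fun i _ => ?_
  rw [prod_eq_single (x i)]
  · simp
  · intro c _ hc
    simp [Ne.symm hc]
  · simp

/-- kinds of nodes -/
inductive Kd (n s : ℕ) (v : Fin s) : Type
  | inp (i : Fin n) (b : Bool) : Kd n s v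
  | zero : Kd n s v
  | one : Kd n s v
  | add (a b : Fin s) (ha : a < v) (hb : b < v) : Kd n s v
  | mul (a b : Fin s) (ha : a < v) (hb : b < v) : Kd n s v

/-- what a kind says -/
def Spec (C : PosCircuit n s) (v : Fin s) : Kd n s v → Prop
  | .inp i b => ∀ w, C.val v w = w i b
  | .zero => ∀ w, C.val v w = 0
  | .one => ∃ c : ℝ, 0 < c ∧ ∀ w, C.val v w = c
  | .add a b _ _ => ∃ α β : ℝ, 0 < α ∧ ∀ w, (∀ i b, 0 < w i b) →
      α * (C.val a w + C.val b w) ≤ C.val v w ∧ C.val v w ≤ β * (C.val a w + C.val b w)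
  | .mul a b _ _ => ∃ α β : ℝ, 0 < α ∧ ∀ w, (∀ i b, 0 < w i b) →
      α * (C.val a w * C.val b w) ≤ C.val v w ∧ C.val v w ≤ β * (C.val a w * C.val b w)

lemma exists_kd (C : PosCircuit n s) (v : Fin s) : ∃ k : Kd n s v, Spec C v k := by
  rcases C.ok v with ⟨i, b, h⟩ | ⟨c, hc, h⟩ | ⟨a, b, ha, hb, h⟩ | ⟨a, b, ha, hb, h⟩
  · exact ⟨.inp i b, h⟩
  · rcases hc.eq_or_lt with hc | hc
    · exact ⟨.zero, fun w => by rw [h w, ← hc]⟩
    · exact ⟨.one, c, hc, h⟩
  · exact ⟨.add a b ha hb, h⟩
  · exact ⟨.mul a b ha hb, h⟩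

/-- the kind of a node -/
noncomputable def kd (C : PosCircuit n s) (v : Fin s) : Kd n s v := (exists_kd C v).choose

lemma kd_spec (C : PosCircuit n s) (v : Fin s) : Spec C v (kd C v) := (exists_kd C v).choose_spec

/-- the monomials of a node -/
noncomputable def P (C : PosCircuit n s) (v : Fin s) : Finset (Ex n) :=
  match kd C v with
  | .inp i b => {sg i b}
  | .zero => ∅
  | .one => {0}
  | .add a b _ha _hb => P C a ∪ P C b
  | .mul a b _ha _hb => ((P C a) ×ˢ (P C b)).image fun p => p.1 + p.2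
termination_by (v : ℕ)

lemma P_inp {C : PosCircuit n s} {v : Fin s} {i : Fin n} {b : Bool} (h : kd C v = .inp i b) :
    P C v = {sg i b} := by
  rw [P, h]

lemma P_zero {C : PosCircuit n s} {v : Fin s} (h : kd C v = .zero) : P C v = ∅ := by
  rw [P, h]

lemma P_one {C : PosCircuit n s} {v : Fin s} (h : kd C v = .one) : P C v = {0} := by
  rw [P, h]

lemma P_add {C : PosCircuit n s} {v a b : Fin s} {ha : a < v} {hb : b < v}
    (h : kd C v = .add a b ha hb) : P C v = P C a ∪ P C b := by
  rw [P, h]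

lemma mem_P_mul {C : PosCircuit n s} {v a b : Fin s} {ha : a < v} {hb : b < v}
    (h : kd C v = .mul a b ha hb) (m : Ex n) :
    m ∈ P C v ↔ ∃ m₁ ∈ P C a, ∃ m₂ ∈ P C b, m = m₁ + m₂ := by
  rw [P, h]
  simp only [mem_image, mem_product]
  constructor
  · rintro ⟨p, ⟨h1, h2⟩, rfl⟩
    exact ⟨p.1, h1, p.2, h2, rfl⟩
  · rintro ⟨m₁, h1, m₂, h2, rfl⟩
    exact ⟨(m₁, m₂), ⟨h1, h2⟩, rfl⟩

lemma val_nonneg (C : PosCircuit n s) (v : Fin s) {w : Fin n → Bool → ℝ}
    (hw : ∀ i b, 0 < w i b) : 0 ≤ C.val v w := by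
  induction v using WellFoundedLT.induction with
  | ind v ih =>
    have hs := kd_spec C v
    rcases hk : kd C v with ⟨i, b⟩ | _ | _ | ⟨a, b, ha, hb⟩ | ⟨a, b, ha, hb⟩ <;> rw [hk] at hs
    · rw [hs w]
      exact (hw i b).le
    · rw [hs w]
    · obtain ⟨c, hc, h⟩ := hs
      rw [h w]
      exact hc.le
    · obtain ⟨α, β, hα, h⟩ := hs
      exact le_trans (mul_nonneg hα.le (add_nonneg (ih a ha) (ih b hb))) (h w hw).1
    · obtain ⟨α, β, hα, h⟩ := hs
      exact le_trans (mul_nonneg hα.le (mul_nonneg (ih a ha) (ih b hb))) (h w hw).1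

lemma lower (C : PosCircuit n s) (v : Fin s) : ∀ m ∈ P C v, ∃ α : ℝ, 0 < α ∧
    ∀ w : Fin n → Bool → ℝ, (∀ i b, 0 < w i b) → α * mon m w ≤ C.val v w := by
  induction v using WellFoundedLT.induction with
  | ind v ih =>
    intro m hm
    have hs := kd_spec C v
    rcases hk : kd C v with ⟨i, b⟩ | _ | _ | ⟨a, b, ha, hb⟩ | ⟨a, b, ha, hb⟩ <;> rw [hk] at hs
    · rw [P_inp hk, mem_singleton] at hm
      subst hm
      refine ⟨1, one_pos, fun w _ => ?_⟩
      rw [mon_sg, hs w, one_mul]
    · rw [P_zero hk] at hm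
      simp at hm
    · rw [P_one hk, mem_singleton] at hm
      subst hm
      obtain ⟨c, hc, h⟩ := hs
      refine ⟨c, hc, fun w _ => ?_⟩
      rw [mon_zero, h w, mul_one]
    · obtain ⟨α, β, hα, h⟩ := hs
      rw [P_add hk, mem_union] at hm
      rcases hm with hm | hm
      · obtain ⟨α', hα', h'⟩ := ih a ha m hm
        refine ⟨α * α', mul_pos hα hα', fun w hw => le_trans ?_ (h w hw).1⟩
        rw [mul_assoc]
        refine mul_le_mul_of_nonneg_left ?_ hα.le
        have := h' w hw
        have := val_nonneg C b hw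
        linarith
      · obtain ⟨α', hα', h'⟩ := ih b hb m hm
        refine ⟨α * α', mul_pos hα hα', fun w hw => le_trans ?_ (h w hw).1⟩
        rw [mul_assoc]
        refine mul_le_mul_of_nonneg_left ?_ hα.le
        have := h' w hw
        have := val_nonneg C a hw
        linarith
    · obtain ⟨α, β, hα, h⟩ := hs
      rw [mem_P_mul hk] at hm
      obtain ⟨m₁, h1, m₂, h2, rfl⟩ := hm
      obtain ⟨α₁, hα₁, h₁⟩ := ih a ha m₁ h1
      obtain ⟨α₂, hα₂, h₂⟩ := ih b hb m₂ h2
      refine ⟨α * (α₁ * α₂), by positivity, fun w hw => le_trans ?_ (h w hw).1⟩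
      rw [mul_assoc]
      refine mul_le_mul_of_nonneg_left ?_ hα.le
      rw [mon_add]
      calc α₁ * α₂ * (mon m₁ w * mon m₂ w) = (α₁ * mon m₁ w) * (α₂ * mon m₂ w) := by ring
        _ ≤ C.val a w * C.val b w := mul_le_mul (h₁ w hw) (h₂ w hw)
            (mul_nonneg hα₂.le (mon_pos _ hw).le) (val_nonneg C a hw)

lemma upper (C : PosCircuit n s) (v : Fin s) : ∃ β : ℝ, 0 ≤ β ∧
    ∀ w : Fin n → Bool → ℝ, (∀ i b, 0 < w i b) → C.val v w ≤ β * ∑ m ∈ P C v, mon m w := by
  induction v using WellFoundedLT.induction with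
  | ind v ih =>
    have hs := kd_spec C v
    rcases hk : kd C v with ⟨i, b⟩ | _ | _ | ⟨a, b, ha, hb⟩ | ⟨a, b, ha, hb⟩ <;> rw [hk] at hs
    · refine ⟨1, zero_le_one, fun w _ => ?_⟩
      rw [P_inp hk, sum_singleton, mon_sg, hs w, one_mul]
    · refine ⟨1, zero_le_one, fun w _ => ?_⟩
      rw [P_zero hk, hs w]
      simp
    · obtain ⟨c, hc, h⟩ := hs
      refine ⟨c, hc.le, fun w _ => ?_⟩
      rw [P_one hk, sum_singleton, mon_zero, h w, mul_one]
    · obtain ⟨α, β, hα, h⟩ := hs
      obtain ⟨β₁, hβ₁, h₁⟩ := ih a ha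
      obtain ⟨β₂, hβ₂, h₂⟩ := ih b hb
      refine ⟨max β 0 * (β₁ + β₂), by positivity, fun w hw => ?_⟩
      have hsa : ∑ m ∈ P C a, mon m w ≤ ∑ m ∈ P C v, mon m w := by
        rw [P_add hk]
        exact sum_le_sum_of_subset_of_nonneg subset_union_left fun m _ _ => (mon_pos m hw).le
      have hsb : ∑ m ∈ P C b, mon m w ≤ ∑ m ∈ P C v, mon m w := by
        rw [P_add hk]
        exact sum_le_sum_of_subset_of_nonneg subset_union_right fun m _ _ => (mon_pos m hw).le
      have h0 : 0 ≤ C.val a w + C.val b w := add_nonneg (val_nonneg C a hw) (val_nonneg C b hw)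
      calc C.val v w ≤ β * (C.val a w + C.val b w) := (h w hw).2
        _ ≤ max β 0 * (C.val a w + C.val b w) :=
            mul_le_mul_of_nonneg_right (le_max_left _ _) h0
        _ ≤ max β 0 * (β₁ * ∑ m ∈ P C v, mon m w + β₂ * ∑ m ∈ P C v, mon m w) := by
            refine mul_le_mul_of_nonneg_left (add_le_add ?_ ?_) (le_max_right _ _)
            · exact (h₁ w hw).trans (mul_le_mul_of_nonneg_left hsa hβ₁)
            · exact (h₂ w hw).trans (mul_le_mul_of_nonneg_left hsb hβ₂)
        _ = _ := by ring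
    · obtain ⟨α, β, hα, h⟩ := hs
      obtain ⟨β₁, hβ₁, h₁⟩ := ih a ha
      obtain ⟨β₂, hβ₂, h₂⟩ := ih b hb
      refine ⟨max β 0 * (β₁ * β₂) * ((P C a).card * (P C b).card), by positivity,
        fun w hw => ?_⟩
      have h0 : 0 ≤ C.val a w * C.val b w := mul_nonneg (val_nonneg C a hw) (val_nonneg C b hw)
      have hprod : (∑ m ∈ P C a, mon m w) * (∑ m ∈ P C b, mon m w) ≤
          ((P C a).card * (P C b).card) * ∑ m ∈ P C v, mon m w := by
        rw [sum_mul_sum, ← sum_product']
        calc ∑ p ∈ P C a ×ˢ P C b, mon p.1 w * mon p.2 w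
            ≤ ∑ _p ∈ P C a ×ˢ P C b, ∑ m ∈ P C v, mon m w := by
              refine sum_le_sum fun p hp => ?_
              rw [← mon_add]
              rw [mem_product] at hp
              exact single_le_sum (f := fun m => mon m w) (fun m _ => (mon_pos m hw).le)
                ((mem_P_mul hk _).2 ⟨p.1, hp.1, p.2, hp.2, rfl⟩)
          _ = _ := by
              rw [sum_const, card_product, nsmul_eq_mul]
              push_cast
              ring
      have hS : 0 ≤ ∑ m ∈ P C b, mon m w := sum_nonneg fun m _ => (mon_pos m hw).le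
      have hS' : 0 ≤ ∑ m ∈ P C a, mon m w := sum_nonneg fun m _ => (mon_pos m hw).le
      calc C.val v w ≤ β * (C.val a w * C.val b w) := (h w hw).2
        _ ≤ max β 0 * (C.val a w * C.val b w) :=
            mul_le_mul_of_nonneg_right (le_max_left _ _) h0
        _ ≤ max β 0 * ((β₁ * ∑ m ∈ P C a, mon m w) * (β₂ * ∑ m ∈ P C b, mon m w)) := by
            refine mul_le_mul_of_nonneg_left ?_ (le_max_right _ _)
            exact mul_le_mul (h₁ w hw) (h₂ w hw) (val_nonneg C b hw) (mul_nonneg hβ₁ hS')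
        _ = max β 0 * (β₁ * β₂) * ((∑ m ∈ P C a, mon m w) * (∑ m ∈ P C b, mon m w)) := by ring
        _ ≤ max β 0 * (β₁ * β₂) * (((P C a).card * (P C b).card) * ∑ m ∈ P C v, mon m w) :=
            mul_le_mul_of_nonneg_left hprod (by positivity)
        _ = _ := by ring

/-- scalar product -/
def sp (a : Fin n → Bool → ℤ) (m : Ex n) : ℤ := ∑ i, ∑ b, a i b * (m i b : ℤ)

/-- the asymptotic comparison of monomials -/
lemma asym {m : Ex n} {Q : Finset (Ex n)} {K : ℝ}
    (h : ∀ w : Fin n → Bool → ℝ, (∀ i b, 0 < w i b) → mon m w ≤ K * ∑ q ∈ Q, mon q w)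
    (a : Fin n → Bool → ℤ) : ∃ q ∈ Q, sp a m ≤ sp a q := by
  by_contra hc
  push Not at hc
  have hmon : ∀ (T : ℝ), 0 < T → ∀ q : Ex n, mon q (fun i b => T ^ a i b) = T ^ sp a q := by
    intro T hT q
    unfold mon sp
    have hT0 : T ≠ 0 := hT.ne'
    have h1 : ∀ i, ∏ b, (T ^ a i b) ^ q i b = T ^ (∑ b, a i b * (q i b : ℤ)) := by
      intro i
      simp only [Fintype.prod_bool, Fintype.sum_bool]
      rw [zpow_add₀ hT0, zpow_mul, zpow_mul, zpow_natCast, zpow_natCast]
    simp only [h1]
    clear h hc h1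
    have : ∀ (s : Finset (Fin n)) (f : Fin n → ℤ), ∏ i ∈ s, T ^ f i = T ^ ∑ i ∈ s, f i := by
      intro s f
      induction s using Finset.induction_on with
      | empty => simp
      | insert i s hi ih => rw [prod_insert hi, sum_insert hi, zpow_add₀ hT0, ih]
    exact this univ _
  have hK : 0 ≤ |K| := abs_nonneg K
  set T : ℝ := |K| * Q.card + 2 with hT
  have hT0 : 0 < T := by positivity
  have hT1 : 1 ≤ T := by
    have : 0 ≤ |K| * (Q.card : ℝ) := by positivity
    linarith
  have h1 := h (fun i b => T ^ a i b) (fun i b => zpow_pos hT0 _)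
  rw [hmon T hT0] at h1
  have h2 : ∑ q ∈ Q, mon q (fun i b => T ^ a i b) ≤ Q.card * T ^ (sp a m - 1) := by
    calc ∑ q ∈ Q, mon q (fun i b => T ^ a i b) ≤ ∑ _q ∈ Q, T ^ (sp a m - 1) := by
          refine sum_le_sum fun q hq => ?_
          rw [hmon T hT0]
          exact zpow_le_zpow_right₀ hT1 (by have := hc q hq; omega)
      _ = _ := by rw [sum_const, nsmul_eq_mul]
  have h3 : 0 ≤ ∑ q ∈ Q, mon q (fun i b => T ^ a i b) :=
    sum_nonneg fun q _ => (mon_pos q (fun i b => zpow_pos hT0 _)).le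
  have h4 : T ^ sp a m = T * T ^ (sp a m - 1) := by
    rw [← zpow_one_add₀ hT0.ne']
    congr 1
    ring
  have h5 : 0 < T ^ (sp a m - 1) := zpow_pos hT0 _
  have h6 : T ^ sp a m ≤ |K| * (Q.card * T ^ (sp a m - 1)) :=
    h1.trans ((mul_le_mul_of_nonneg_right (le_abs_self K) h3).trans
      (mul_le_mul_of_nonneg_left h2 hK))
  rw [h4] at h6
  have h7 : T ≤ |K| * Q.card := by
    have : T * T ^ (sp a m - 1) ≤ (|K| * Q.card) * T ^ (sp a m - 1) := by
      rw [mul_assoc |K|]
      exact h6
    exact le_of_mul_le_mul_right this h5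
  linarith

lemma sp_ind (a : Fin n → Bool → ℤ) (x : Pt n) : sp a (ind x) = ∑ i, a i (x i) := by
  unfold sp ind
  refine sum_congr rfl fun i _ => ?_
  rw [sum_eq_single (x i)]
  · simp
  · intro b _ hb
    simp [Ne.symm hb]
  · simp

/-- `ind x` is only beaten by itself. -/
lemma eq_of_sp {x y : Pt n} (h : sp (fun i b => if x i = b then 1 else 0) (ind x) ≤
    sp (fun i b => if x i = b then 1 else 0) (ind y)) : y = x := by
  rw [sp_ind, sp_ind] at h
  have h1 : ∀ i ∈ (univ : Finset (Fin n)), (if x i = y i then (1 : ℤ) else 0) ≤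
      (if x i = x i then (1 : ℤ) else 0) := by
    intro i _
    split_ifs <;> simp_all
  have h2 := (sum_eq_sum_iff_of_le h1).1 (le_antisymm (sum_le_sum h1) h)
  funext i
  have := h2 i (mem_univ i)
  by_contra hne
  rw [if_neg (fun h => hne h.symm), if_pos rfl] at this
  omega

/-- the monomials which are bounded by the monomials of the points of `Q` are among them. -/
lemma mem_of_bound {m : Ex n} {G : Finset (Pt n)} {K : ℝ}
    (h : ∀ w : Fin n → Bool → ℝ, (∀ i b, 0 < w i b) → mon m w ≤ K * ∑ x ∈ G, mon (ind x) w) :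
    ∃ x ∈ G, m = ind x := by
  classical
  have hQ : ∀ w : Fin n → Bool → ℝ, (∀ i b, 0 < w i b) →
      mon m w ≤ K * ∑ q ∈ G.image ind, mon q w := by
    intro w hw
    rw [sum_image]
    · exact h w hw
    · intro x _ y _ hxy
      funext i
      have h1 : (if x i = x i then 1 else 0) = (if y i = x i then 1 else 0) :=
        congrFun (congrFun hxy i) (x i)
      by_contra hne
      have h2 : ¬ y i = x i := fun h => hne h.symm
      simp [h2] at h1
  have hwt : ∀ i, m i false + m i true = 1 := by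
    intro i
    have key : ∀ (ε : ℤ) (q : Ex n), sp (fun j _ => if j = i then ε else 0) q =
        ε * (q i false + q i true : ℤ) := by
      intro ε q
      unfold sp
      rw [sum_eq_single i]
      · simp only [if_true, Fintype.sum_bool]
        ring
      · intro j _ hj
        simp [hj]
      · simp
    have hind : ∀ x : Pt n, ((ind x i false : ℕ) : ℤ) + (ind x i true : ℕ) = 1 := by
      intro x
      unfold ind
      cases x i <;> simp
    obtain ⟨q, hq, h1⟩ := asym hQ (fun j _ => if j = i then 1 else 0)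
    obtain ⟨q', hq', h2⟩ := asym hQ (fun j _ => if j = i then -1 else 0)
    obtain ⟨x, _, rfl⟩ := mem_image.1 hq
    obtain ⟨x', _, rfl⟩ := mem_image.1 hq'
    rw [key, key, hind] at h1 h2
    omega
  set y : Pt n := fun i => decide (m i true = 1) with hy
  have hmy : m = ind y := by
    funext i b
    have := hwt i
    unfold ind
    rw [hy]
    cases b
    · by_cases h1 : m i true = 1
      · simp [h1]
        omega
      · simp [h1]
        omega
    · by_cases h1 : m i true = 1
      · simp [h1]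
      · simp [h1]
        omega
  obtain ⟨q, hq, h1⟩ := asym hQ (fun i b => if y i = b then 1 else 0)
  obtain ⟨x, hx, rfl⟩ := mem_image.1 hq
  rw [hmy] at h1
  have := eq_of_sp h1
  exact ⟨x, hx, by rw [hmy, this]⟩

/-- a context of `v` -/
def Ctx (C : PosCircuit n s) (r v : Fin s) (c : Ex n) : Prop := ∀ m ∈ P C v, c + m ∈ P C r

/-- nodes which are used -/
def Live (C : PosCircuit n s) (r v : Fin s) : Prop := (P C v).Nonempty ∧ ∃ c, Ctx C r v c

open Classical in
/-- the variables of a node -/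
noncomputable def vs (C : PosCircuit n s) (r v : Fin s) : Finset (Fin n) :=
  univ.filter fun i => Live C r v ∧ ∃ m ∈ P C v, m i false + m i true = 1

/-- the value of a node -/
def vl (C : PosCircuit n s) (r v : Fin s) (x : Pt n) : Prop :=
  Live C r v ∧ ∃ m ∈ P C v, ∀ i ∈ vs C r v, m i (x i) = 1

variable {C : PosCircuit n s} {r : Fin s} {F : Pt n → Prop}

lemma wt_context (hP : ∀ m ∈ P C r, ∀ i, m i false + m i true = 1) {v : Fin s} {c : Ex n}
    (hc : Ctx C r v c) {m : Ex n} (hm : m ∈ P C v) (i : Fin n) :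
    (c i false + c i true) + (m i false + m i true) = 1 := by
  have := hP _ (hc m hm) i
  have h1 : (c + m) i false = c i false + m i false := rfl
  have h2 : (c + m) i true = c i true + m i true := rfl
  omega

/-- all monomials of a live node have the same variables -/
lemma mem_vs (hP : ∀ m ∈ P C r, ∀ i, m i false + m i true = 1) {v : Fin s} (hv : Live C r v)
    {m : Ex n} (hm : m ∈ P C v) (i : Fin n) : i ∈ vs C r v ↔ m i false + m i true = 1 := by
  classical
  unfold vs
  rw [mem_filter]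
  constructor
  · rintro ⟨_, _, m', hm', h⟩
    obtain ⟨c, hc⟩ := hv.2
    have h1 := wt_context hP hc hm i
    have h2 := wt_context hP hc hm' i
    omega
  · intro h
    exact ⟨mem_univ _, hv, m, hm, h⟩

lemma wt_le (hP : ∀ m ∈ P C r, ∀ i, m i false + m i true = 1) {v : Fin s} (hv : Live C r v)
    {m : Ex n} (hm : m ∈ P C v) (i : Fin n) : m i false + m i true ≤ 1 := by
  obtain ⟨c, hc⟩ := hv.2
  have h1 := wt_context hP hc hm i
  omega

lemma vs_of_not_live {v : Fin s} (hv : ¬ Live C r v) : vs C r v = ∅ := by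
  classical
  unfold vs
  rw [filter_eq_empty_iff]
  rintro i _ ⟨h, _⟩
  exact hv h

/-- the DNNF in the circuit -/
lemma rules (hP : ∀ m ∈ P C r, ∀ i, m i false + m i true = 1) (v : Fin s) :
    ((vs C r v).card ≤ 1) ∨
    (∃ a b : Fin s, a < v ∧ b < v ∧ Disjoint (vs C r a) (vs C r b) ∧
      vs C r v = vs C r a ∪ vs C r b ∧ ∀ x, vl C r v x ↔ vl C r a x ∧ vl C r b x) ∨
    (∃ a b : Fin s, a < v ∧ b < v ∧ vs C r v = vs C r a ∪ vs C r b ∧
      ∀ x, vl C r v x ↔ vl C r a x ∨ vl C r b x) := by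
  classical
  by_cases hv : Live C r v
  swap
  · left
    rw [vs_of_not_live hv]
    simp
  rcases hk : kd C v with ⟨i, b⟩ | _ | _ | ⟨a, b, ha, hb⟩ | ⟨a, b, ha, hb⟩
  · left
    have : vs C r v ⊆ {i} := by
      intro j hj
      rw [mem_vs hP hv (m := sg i b) (by rw [P_inp hk]; exact mem_singleton_self _)] at hj
      rw [mem_singleton]
      by_contra hne
      unfold sg at hj
      simp [hne] at hj
    exact (card_le_card this).trans (by simp)
  · have h1 := hv.1
    rw [P_zero hk] at h1
    simp at h1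
  · left
    have : vs C r v ⊆ ∅ := by
      intro j hj
      rw [mem_vs hP hv (m := 0) (by rw [P_one hk]; exact mem_singleton_self _)] at hj
      simp at hj
    exact (card_le_card this).trans (by simp)
  · -- sum
    right; right
    refine ⟨a, b, ha, hb, ?_⟩
    have hPv := P_add hk
    obtain ⟨c, hc⟩ := hv.2
    have hla : (P C a).Nonempty → Live C r a := fun h =>
      ⟨h, c, fun m hm => hc m (by rw [hPv]; exact mem_union_left _ hm)⟩
    have hlb : (P C b).Nonempty → Live C r b := fun h =>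
      ⟨h, c, fun m hm => hc m (by rw [hPv]; exact mem_union_right _ hm)⟩
    have hsa : ∀ m ∈ P C a, vs C r a = vs C r v := by
      intro m hm
      ext i
      rw [mem_vs hP (hla ⟨m, hm⟩) hm, mem_vs hP hv (m := m) (by rw [hPv]; exact mem_union_left _ hm)]
    have hsb : ∀ m ∈ P C b, vs C r b = vs C r v := by
      intro m hm
      ext i
      rw [mem_vs hP (hlb ⟨m, hm⟩) hm,
        mem_vs hP hv (m := m) (by rw [hPv]; exact mem_union_right _ hm)]
    constructor
    · obtain ⟨m, hm⟩ := hv.1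
      rw [hPv, mem_union] at hm
      refine Subset.antisymm ?_ (union_subset ?_ ?_)
      · rcases hm with hm | hm
        · rw [← hsa m hm]
          exact subset_union_left
        · rw [← hsb m hm]
          exact subset_union_right
      · rcases (P C a).eq_empty_or_nonempty with h0 | ⟨m', hm'⟩
        · rw [vs_of_not_live (fun h => by rw [Live, h0] at h; simp at h)]
          exact empty_subset _
        · rw [hsa m' hm']
      · rcases (P C b).eq_empty_or_nonempty with h0 | ⟨m', hm'⟩
        · rw [vs_of_not_live (fun h => by rw [Live, h0] at h; simp at h)]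
          exact empty_subset _
        · rw [hsb m' hm']
    · intro x
      constructor
      · rintro ⟨_, m, hm, h⟩
        rw [hPv, mem_union] at hm
        rcases hm with hm | hm
        · left
          exact ⟨hla ⟨m, hm⟩, m, hm, fun i hi => h i (by rw [← hsa m hm]; exact hi)⟩
        · right
          exact ⟨hlb ⟨m, hm⟩, m, hm, fun i hi => h i (by rw [← hsb m hm]; exact hi)⟩
      · rintro (⟨_, m, hm, h⟩ | ⟨_, m, hm, h⟩)
        · exact ⟨hv, m, by rw [hPv]; exact mem_union_left _ hm,
            fun i hi => h i (by rw [hsa m hm]; exact hi)⟩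
        · exact ⟨hv, m, by rw [hPv]; exact mem_union_right _ hm,
            fun i hi => h i (by rw [hsb m hm]; exact hi)⟩
  · -- product
    right; left
    refine ⟨a, b, ha, hb, ?_⟩
    have hPv := mem_P_mul hk
    obtain ⟨c, hc⟩ := hv.2
    obtain ⟨m₀, hm₀⟩ := hv.1
    obtain ⟨p, hp, q, hq, rfl⟩ := (hPv _).1 hm₀
    have hla : Live C r a := ⟨⟨p, hp⟩, c + q, fun m hm => by
      have := hc (m + q) ((hPv _).2 ⟨m, hm, q, hq, rfl⟩)
      rwa [add_comm m q, ← add_assoc] at this⟩
    have hlb : Live C r b := ⟨⟨q, hq⟩, c + p, fun m hm => by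
      have := hc (p + m) ((hPv _).2 ⟨p, hp, m, hm, rfl⟩)
      rwa [← add_assoc] at this⟩
    have key : ∀ m₁ ∈ P C a, ∀ m₂ ∈ P C b, ∀ i,
        (m₁ i false + m₁ i true) + (m₂ i false + m₂ i true) ≤ 1 := by
      intro m₁ h1 m₂ h2 i
      have := wt_le hP hv ((hPv _).2 ⟨m₁, h1, m₂, h2, rfl⟩) i
      have e1 : (m₁ + m₂) i false = m₁ i false + m₂ i false := rfl
      have e2 : (m₁ + m₂) i true = m₁ i true + m₂ i true := rfl
      omega
    have hvs : ∀ i, i ∈ vs C r v ↔ i ∈ vs C r a ∨ i ∈ vs C r b := by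
      intro i
      rw [mem_vs hP hv hm₀, mem_vs hP hla hp, mem_vs hP hlb hq]
      have := key p hp q hq i
      have e1 : (p + q) i false = p i false + q i false := rfl
      have e2 : (p + q) i true = p i true + q i true := rfl
      omega
    refine ⟨?_, ?_, ?_⟩
    · rw [disjoint_left]
      intro i h1 h2
      rw [mem_vs hP hla hp] at h1
      rw [mem_vs hP hlb hq] at h2
      have := key p hp q hq i
      omega
    · ext i
      rw [mem_union, hvs]
    · intro x
      constructor
      · rintro ⟨_, m, hm, h⟩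
        obtain ⟨m₁, h1, m₂, h2, rfl⟩ := (hPv _).1 hm
        refine ⟨⟨hla, m₁, h1, fun i hi => ?_⟩, ⟨hlb, m₂, h2, fun i hi => ?_⟩⟩
        · have h3 := h i ((hvs i).2 (Or.inl hi))
          have h4 : (m₁ + m₂) i (x i) = m₁ i (x i) + m₂ i (x i) := rfl
          rw [mem_vs hP hla h1] at hi
          have h5 := key m₁ h1 m₂ h2 i
          rcases hx : x i with _ | _ <;> rw [hx] at h3 h4 <;> omega
        · have h3 := h i ((hvs i).2 (Or.inr hi))
          have h4 : (m₁ + m₂) i (x i) = m₁ i (x i) + m₂ i (x i) := rfl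
          rw [mem_vs hP hlb h2] at hi
          have h5 := key m₁ h1 m₂ h2 i
          rcases hx : x i with _ | _ <;> rw [hx] at h3 h4 <;> omega
      · rintro ⟨⟨_, m₁, h1, h1'⟩, ⟨_, m₂, h2, h2'⟩⟩
        refine ⟨hv, m₁ + m₂, (hPv _).2 ⟨m₁, h1, m₂, h2, rfl⟩, fun i hi => ?_⟩
        have h4 : (m₁ + m₂) i (x i) = m₁ i (x i) + m₂ i (x i) := rfl
        have h5 := key m₁ h1 m₂ h2 i
        rcases (hvs i).1 hi with h6 | h6
        · have h7 := h1' i h6
          rcases hx : x i with _ | _ <;> rw [hx] at h7 h4 <;> omega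
        · have h7 := h2' i h6
          rcases hx : x i with _ | _ <;> rw [hx] at h7 h4 <;> omega

end Ari

open Ari in
/-- **A subtraction-free circuit for the weighted model count contains a DNNF.** -/
theorem thm_Ari : St_Ari := by
  classical
  intro n s C r F α β hα hne h
  set G : Finset (Pt n) := univ.filter F with hG
  have hwc : ∀ w, wcount F w = ∑ x ∈ G, mon (ind x) w := by
    intro w
    unfold wcount
    rw [hG, sum_filter]
    refine sum_congr rfl fun x _ => ?_
    rw [mon_ind]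
  -- the monomials of the root are monomials of models
  have h1 : ∀ m ∈ P C r, ∃ x ∈ G, m = ind x := by
    intro m hm
    obtain ⟨α', hα', hl⟩ := lower C r m hm
    refine mem_of_bound (K := β / α') ?_
    intro w hw
    rw [← hwc, div_mul_eq_mul_div, le_div_iff₀ hα', mul_comm]
    exact (hl w hw).trans (h w hw).2
  -- and all of them occur
  have h2 : ∀ x ∈ G, ind x ∈ P C r := by
    intro x hx
    obtain ⟨β', hβ', hu⟩ := upper C r
    have h3 : ∀ w : Fin n → Bool → ℝ, (∀ i b, 0 < w i b) →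
        mon (ind x) w ≤ (β' / α) * ∑ q ∈ P C r, mon q w := by
      intro w hw
      rw [div_mul_eq_mul_div, le_div_iff₀ hα, mul_comm]
      refine le_trans ?_ (hu w hw)
      refine le_trans ?_ (h w hw).1
      refine mul_le_mul_of_nonneg_left ?_ hα.le
      rw [hwc]
      exact single_le_sum (f := fun y => mon (ind y) w) (fun y _ => (mon_pos _ hw).le) hx
    obtain ⟨q, hq, h4⟩ := asym h3 (fun i b => if x i = b then 1 else 0)
    obtain ⟨y, hy, rfl⟩ := h1 q hq
    rw [eq_of_sp h4] at hq
    exact hq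
  have hP : ∀ m ∈ P C r, ∀ i, m i false + m i true = 1 := by
    intro m hm i
    obtain ⟨x, _, rfl⟩ := h1 m hm
    unfold ind
    cases x i <;> simp
  have hlr : Live C r r := by
    obtain ⟨x, hx⟩ := hne
    refine ⟨⟨ind x, h2 x (by rw [hG, mem_filter]; exact ⟨mem_univ _, hx⟩)⟩, 0, fun m hm => ?_⟩
    rwa [zero_add]
  have hdep : ∀ v : Fin s, ∀ x x' : Pt n, (∀ i ∈ vs C r v, x i = x' i) →
      (vl C r v x ↔ vl C r v x') := by
    intro v x x' hxx
    unfold vl
    refine and_congr Iff.rfl ⟨?_, ?_⟩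
    · rintro ⟨m, hm, hh⟩
      exact ⟨m, hm, fun i hi => by rw [← hxx i hi]; exact hh i hi⟩
    · rintro ⟨m, hm, hh⟩
      exact ⟨m, hm, fun i hi => by rw [hxx i hi]; exact hh i hi⟩
  refine ⟨⟨fun v => vs C r v, fun _ => ∅, fun v x _ => vl C r v x, ?_⟩, ?_⟩
  · intro v
    rcases rules (C := C) (r := r) hP v with h3 | ⟨a, b, ha, hb, h3, h4, h5⟩ | ⟨a, b, ha, hb, h4, h5⟩
    · exact Or.inl ⟨h3, fun x x' _ _ hxx _ => hdep v x x' hxx⟩
    · exact Or.inr (Or.inl ⟨a, b, ha, hb, h3, disjoint_empty_left _, h4, by simp,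
        fun x _ => h5 x⟩)
    · exact Or.inr (Or.inr ⟨a, b, ha, hb, h4, by simp, fun x _ => h5 x⟩)
  · intro x z
    show vl C r r x ↔ F x
    have hall : ∀ i, i ∈ vs C r r := by
      intro i
      obtain ⟨m, hm⟩ := hlr.1
      rw [mem_vs hP hlr hm]
      exact hP m hm i
    constructor
    · rintro ⟨_, m, hm, hh⟩
      obtain ⟨y, hy, rfl⟩ := h1 m hm
      have : y = x := by
        funext i
        have := hh i (hall i)
        unfold ind at this
        by_contra hne'
        simp [hne'] at this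
      rw [← this]
      rw [hG, mem_filter] at hy
      exact hy.2
    · intro hx
      refine ⟨hlr, ind x, h2 x (by rw [hG, mem_filter]; exact ⟨mem_univ _, hx⟩), fun i _ => ?_⟩
      simp [ind]

end Pool.Agent.STD
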