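import Pool.Agent.STH.Defs

/-!
# Strong exponential lower bounds for DNNFs: definitions and statements of the modules

`Pool.Agent.STH` treats read-once programs with gates over a field; here the same formulas are
shown to be hard for decomposable negation normal forms (DNNFs) with arbitrary disjunctions.
-/

set_option autoImplicit false

namespace Pool.Agent.STD

open Finset Pool.Agent.STH

/-- A DNNF with `s` nodes in the `n` variables `x` and the `q` auxiliary variables `z`, with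
leaves of width `m`. The node `v` has a set `vars v` of variables, a set `aux v` of auxiliary
variables and a set `val v` of accepted pairs `(x, z)`, and is
* a leaf: any condition on its variables, at most `m` of them not auxiliary, or
* a conjunction of two nodes without common variables, or
* a disjunction of two nodes.
Children come earlier in the order of the nodes. -/
structure Dnnf (n q m s : ℕ) where
  /-- the variables of a node -/
  vars : Fin s → Finset (Fin n)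
  /-- the auxiliary variables of a node -/
  aux : Fin s → Finset (Fin q)
  /-- the pairs accepted by a node -/
  val : Fin s → (Fin n → Bool) → (Fin q → Bool) → Prop
  /-- the rules -/
  ok : ∀ v : Fin s,
    ((vars v).card ≤ m ∧ ∀ x x' z z', (∀ i ∈ vars v, x i = x' i) → (∀ j ∈ aux v, z j = z' j) →
      (val v x z ↔ val v x' z')) ∨
    (∃ a b : Fin s, a < v ∧ b < v ∧ Disjoint (vars a) (vars b) ∧ Disjoint (aux a) (aux b) ∧
      vars v = vars a ∪ vars b ∧ aux v = aux a ∪ aux b ∧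
      ∀ x z, val v x z ↔ val a x z ∧ val b x z) ∨
    (∃ a b : Fin s, a < v ∧ b < v ∧ vars v = vars a ∪ vars b ∧ aux v = aux a ∪ aux b ∧
      ∀ x z, val v x z ↔ val a x z ∨ val b x z)

/-- A deterministic DNNF (d-DNNF) with `s` nodes in `n` variables, with leaves of width `m`: as
above, without auxiliary variables, and no point is accepted by both inputs of a disjunction. -/
structure Ddnnf (n m s : ℕ) where
  /-- the variables of a node -/
  vars : Fin s → Finset (Fin n)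
  /-- the points accepted by a node -/
  val : Fin s → (Fin n → Bool) → Prop
  /-- the rules -/
  ok : ∀ v : Fin s,
    ((vars v).card ≤ m ∧ ∀ x x', (∀ i ∈ vars v, x i = x' i) → (val v x ↔ val v x')) ∨
    (∃ a b : Fin s, a < v ∧ b < v ∧ Disjoint (vars a) (vars b) ∧ vars v = vars a ∪ vars b ∧
      ∀ x, val v x ↔ val a x ∧ val b x) ∨
    (∃ a b : Fin s, a < v ∧ b < v ∧ vars v = vars a ∪ vars b ∧
      (∀ x, val v x ↔ val a x ∨ val b x) ∧ ∀ x, ¬ (val a x ∧ val b x))

/-- the number of restrictions of the points of `T` to `W` -/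
noncomputable def cw {n : ℕ} (W : Finset (Fin n)) (T : Finset (Pt n)) : ℕ :=
  (T.image fun x => mix W x fun _ => false).card

/-- `T` is a box for `W`: the product of a set of points on `W` and a set of points off `W`. -/
def IsBox {n : ℕ} (W : Finset (Fin n)) (T : Finset (Pt n)) : Prop :=
  ∀ x ∈ T, ∀ y ∈ T, mix W x y ∈ T

/-- `F` has no separated `r × r` grid of models. -/
def NoGrid {n : ℕ} (F : Pt n → Prop) (r t : ℕ) : Prop :=
  ∀ (W : Finset (Fin n)) (x y : Fin r → Pt n), (∀ i j, i ≠ j → t ≤ dOff Wᶜ (x i) (x j)) →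
    (∀ i j, i ≠ j → t ≤ dOff W (y i) (y j)) → ∃ i j, ¬ F (mix W (x i) (y j))

open Classical in
/-- In a box with both sides longer than `S`, at most half of the points are models of `F`. -/
def Dense {n : ℕ} (F : Pt n → Prop) (S : ℕ) : Prop :=
  ∀ (W : Finset (Fin n)) (T : Finset (Pt n)), IsBox W T → S < cw W T → S < cw Wᶜ T →
    2 * (T.filter F).card ≤ T.card

/-- [Grd] few formulas have a separated grid of models. -/
def St_Grd : Prop := ∀ (Δ τ : ℝ) (k r : ℕ), 0 < Δ → Δ ≤ 1 → 0 < τ → τ ≤ 1 →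
  10 ≤ Δ * r → 2 ≤ k → (r : ℝ) ^ 4 * (1 - τ) ^ k ≤ 1 →
  ∃ n₀ : ℕ, ∀ n : ℕ, n₀ ≤ n → ∀ (t M : ℕ), τ * n ≤ t → t ≤ n → M = ⌊Δ * n * 2 ^ k⌋₊ →
    ((Nat.card {ω : Fm n k M // ¬ NoGrid (Mod ω) r t} : ℕ) : ℝ) ≤
      (2 * (n : ℝ)) ^ (k * M) * Real.exp (-(4 * n))

/-- [Den] from grids to boxes (Kővári–Sós–Turán). -/
def St_Den : Prop := ∀ (n r t : ℕ) (F : Pt n → Prop) (B : ℝ) (S : ℕ), 1 ≤ r → 1 ≤ B →
  NoGrid F r t → BallLe n t B → 8 ^ (r + 1) * r * B ≤ (S : ℝ) → Dense F S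

/-- [Wlk] (projections of) DNNFs which imply `F`. -/
def St_Wlk : Prop := ∀ (n q m s : ℕ) (D : Dnnf n q m s) (r : Fin s) (F : Pt n → Prop)
  (S : ℕ), 1 ≤ S → Dense F S → (∀ x z, D.val r x z → F x) →
  Nat.card {x // ∃ z, D.val r x z} ≤ (s + 1) * (4 * S ^ 3 * 2 ^ m)

/-- [Wld] d-DNNFs near `F`. -/
def St_Wld : Prop := ∀ (n m s : ℕ) (D : Ddnnf n m s) (r : Fin s) (F : Pt n → Prop)
  (S : ℕ), 1 ≤ S → Dense F S →
  Nat.card {x // F x} ≤
    Nat.card {x // ¬ (D.val r x ↔ F x)} + (s + 1) * (4 * S ^ 3 * 2 ^ m)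

/-- [Rn2] the random formula, with both properties. -/
def St_Rn2 : Prop := ∀ (Δ θ τ : ℝ) (k p : ℕ), 0 < Δ → 16 * Δ ≤ θ → θ ≤ 1 / 8 → 0 < τ → τ ≤ 1 →
  10 ≤ Δ * p → 2 ≤ k → 4 * (p : ℝ) ^ 2 * (1 - min τ (θ / 20)) ^ k ≤ 1 →
  (p : ℝ) ^ 4 * (1 - τ) ^ k ≤ 1 →
  ∃ n₀ : ℕ, ∀ n : ℕ, n₀ ≤ n → ∀ (a d M : ℕ), θ * n ≤ a → τ * n ≤ d → d ≤ n →
    M = ⌊Δ * n * 2 ^ k⌋₊ →
    ∃ ω : Fm n k M, 2 ^ n * Real.exp (-(5 / 4 * Δ * n)) / 2 ≤ ((Nat.card {x // Mod ω x} : ℕ) : ℝ) ∧
      PropQ (Mod ω) a d (Real.exp (-(3 / 2 * Δ * n))) ∧ NoGrid (Mod ω) p d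

end Pool.Agent.STD
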