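import Pool.Agent.STD.Defs

/-!
# The joint final statement: programs, DNNFs and d-DNNFs
-/

set_option autoImplicit false

namespace Pool.Agent.STD

open Finset Pool.Agent.STH

/-- the formula as a list -/
private noncomputable def Fn3_cnf {n k M : ℕ} (ω : Fm n k M) : CNF n :=
  List.ofFn fun m => List.ofFn fun j => ω m j

private theorem Fn3_sat {n k M : ℕ} (ω : Fm n k M) (x : Pt n) : Sat (Fn3_cnf ω) x ↔ Mod ω x := by
  unfold Sat Fn3_cnf Pool.Agent.STH.Mod
  constructor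
  · intro h m
    obtain ⟨l, hl, hx⟩ := h (List.ofFn fun j => ω m j) (by
      rw [List.mem_ofFn]; exact ⟨m, rfl⟩)
    rw [List.mem_ofFn] at hl
    obtain ⟨j, rfl⟩ := hl
    exact ⟨j, hx⟩
  · intro h c hc
    rw [List.mem_ofFn] at hc
    obtain ⟨m, rfl⟩ := hc
    obtain ⟨j, hj⟩ := h m
    refine ⟨ω m j, ?_, hj⟩
    rw [List.mem_ofFn]
    exact ⟨j, rfl⟩

private theorem Fn3_ball {n d : ℕ} (x : Pt n) :
    Nat.card {x' : Pt n // dist x x' < d} =
      Nat.card {x' : Pt n // Off (univ : Finset (Fin n)) x x' ∧ dist x x' < d} := by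
  apply Nat.card_congr
  apply Equiv.subtypeEquivRight
  intro x'
  constructor
  · intro h
    exact ⟨fun i hi => absurd (mem_univ i) hi, h⟩
  · intro h
    exact h.2

/-- real arithmetic of the parameters -/
private theorem Fn3_k (k : ℕ) (hk : 2 ≤ k) (l : ℝ) (hl : l = 2400 * Real.log k ^ 2 / k)
    (hl1 : l < 1) (p : ℕ) (hp : (p : ℝ) ≤ 1281 / l) :
    4 * (p : ℝ) ^ 2 * (1 - min (l / 8 / (3 * Real.log (4 / (l / 8)))) ((l / 8) / 20)) ^ k ≤ 1 ∧
    (p : ℝ) ^ 4 * (1 - l / 8 / (3 * Real.log (4 / (l / 8)))) ^ k ≤ 1 ∧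
    l / 8 / (3 * Real.log (4 / (l / 8))) ≤ 1 := by
  have hk0 : (2 : ℝ) ≤ k := by exact_mod_cast hk
  have hk0' : (0 : ℝ) < k := by linarith
  have hlog2 : 0.6931471803 < Real.log 2 := Real.log_two_gt_d9
  have hlogk : Real.log 2 ≤ Real.log k := Real.log_le_log (by norm_num) hk0
  have hlk : 0 < Real.log k := by linarith
  have hl0 : 0 < l := by rw [hl]; positivity
  -- `32 / l ≤ k`
  have h32 : 32 / l ≤ k := by
    rw [div_le_iff₀ hl0, hl]
    rw [mul_div_assoc', mul_comm (k : ℝ), mul_div_assoc, div_self hk0'.ne', mul_one]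
    nlinarith
  have h32' : 4 / (l / 8) = 32 / l := by
    field_simp
    norm_num
  have hL : Real.log (32 / l) ≤ Real.log k := Real.log_le_log (by positivity) h32
  have hL1 : 1 ≤ Real.log (32 / l) := by
    have h1 : (4 : ℝ) ≤ 32 / l := by
      rw [le_div_iff₀ hl0]; linarith
    have h2 : Real.log 4 ≤ Real.log (32 / l) := Real.log_le_log (by norm_num) h1
    have h3 : Real.log 4 = 2 * Real.log 2 := by
      rw [show (4 : ℝ) = 2 ^ 2 by norm_num, Real.log_pow]
      norm_num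
    linarith
  set m : ℝ := min (l / 8 / (3 * Real.log (4 / (l / 8)))) ((l / 8) / 20) with hm
  have hm0 : l / (160 * Real.log k) ≤ m := by
    rw [hm, h32']
    apply le_min
    · rw [div_div, div_le_div_iff₀ (by positivity) (by positivity)]
      nlinarith
    · rw [div_div, div_le_div_iff₀ (by positivity) (by positivity)]
      nlinarith
  have hmk : 15 * Real.log k ≤ m * k := by
    have h1 : l / (160 * Real.log k) * k ≤ m * k := mul_le_mul_of_nonneg_right hm0 hk0'.le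
    have h2 : l / (160 * Real.log k) * k = 15 * Real.log k := by
      rw [hl]
      field_simp
      norm_num
    linarith
  have hm1 : m ≤ 1 := by
    have : m ≤ l / 8 / 20 := min_le_right _ _
    linarith
  have hpow : (1 - m) ^ k ≤ Real.exp (-(15 * Real.log k)) := by
    have h1 : 1 - m ≤ Real.exp (-m) := by
      have := Real.add_one_le_exp (-m)
      linarith
    calc (1 - m) ^ k ≤ (Real.exp (-m)) ^ k := pow_le_pow_left₀ (by linarith) h1 k
      _ = Real.exp (-(m * k)) := by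
          rw [← Real.exp_nat_mul]
          congr 1
          ring
      _ ≤ _ := Real.exp_le_exp.mpr (by linarith)
  have hexp : Real.exp (-(15 * Real.log k)) = 1 / (k : ℝ) ^ 15 := by
    rw [Real.exp_neg, one_div, mul_comm, Real.exp_mul, Real.exp_log hk0']
    norm_num
  rw [hexp] at hpow
  have hp0 : (0 : ℝ) ≤ p := by positivity
  have hp2 : (p : ℝ) ≤ 41 * k := by
    have : 1281 / l = (1281 / 32) * (32 / l) := by
      field_simp
    rw [this] at hp
    nlinarith
  have hp3 : 4 * (p : ℝ) ^ 2 ≤ 6724 * (k : ℝ) ^ 2 := by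
    nlinarith
  have hk13 : (6724 : ℝ) ≤ (k : ℝ) ^ 13 := by
    calc (6724 : ℝ) ≤ 2 ^ 13 := by norm_num
      _ ≤ (k : ℝ) ^ 13 := pow_le_pow_left₀ (by norm_num) hk0 13
  have hτ1 : l / 8 / (3 * Real.log (4 / (l / 8))) ≤ 1 := by
    rw [h32', div_le_one (by positivity)]
    linarith
  refine ⟨?_, ?_, hτ1⟩
  · calc 4 * (p : ℝ) ^ 2 * (1 - m) ^ k ≤ (6724 * (k : ℝ) ^ 2) * (1 / (k : ℝ) ^ 15) := by
          apply mul_le_mul hp3 hpow _ (by positivity)
          exact pow_nonneg (by linarith) _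
      _ ≤ ((k : ℝ) ^ 13 * (k : ℝ) ^ 2) * (1 / (k : ℝ) ^ 15) := by
          apply mul_le_mul_of_nonneg_right _ (by positivity)
          exact mul_le_mul_of_nonneg_right hk13 (by positivity)
      _ = 1 := by
          field_simp
  · have hk4 : (4 : ℝ) ≤ k := by
      have h1 : l * k = 2400 * Real.log k ^ 2 := by
        rw [hl]
        field_simp
      nlinarith
    have hmτ : m ≤ l / 8 / (3 * Real.log (4 / (l / 8))) := min_le_left _ _
    have hpow2 : (1 - l / 8 / (3 * Real.log (4 / (l / 8)))) ^ k ≤ 1 / (k : ℝ) ^ 15 :=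
      (pow_le_pow_left₀ (by linarith) (by linarith) k).trans hpow
    have hp4 : (p : ℝ) ^ 4 ≤ 2825761 * (k : ℝ) ^ 4 := by
      calc (p : ℝ) ^ 4 ≤ (41 * k) ^ 4 := pow_le_pow_left₀ hp0 hp2 4
        _ = _ := by ring
    have hk11 : (2825761 : ℝ) ≤ (k : ℝ) ^ 11 := by
      calc (2825761 : ℝ) ≤ 4 ^ 11 := by norm_num
        _ ≤ (k : ℝ) ^ 11 := pow_le_pow_left₀ (by norm_num) hk4 11
    calc (p : ℝ) ^ 4 * (1 - l / 8 / (3 * Real.log (4 / (l / 8)))) ^ k
        ≤ (2825761 * (k : ℝ) ^ 4) * (1 / (k : ℝ) ^ 15) := by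
          apply mul_le_mul hp4 hpow2 _ (by positivity)
          exact pow_nonneg (by linarith) _
      _ ≤ ((k : ℝ) ^ 11 * (k : ℝ) ^ 4) * (1 / (k : ℝ) ^ 15) := by
          apply mul_le_mul_of_nonneg_right _ (by positivity)
          exact mul_le_mul_of_nonneg_right hk11 (by positivity)
      _ = 1 := by
          field_simp

/-- the final arithmetic -/
private theorem Fn3_ar (l A : ℝ) (hl0 : 0 < l) (hA : 1 ≤ A) : ∃ n₁ : ℕ, ∀ n : ℕ, n₁ ≤ n →
    ∀ S : ℝ, 0 ≤ S →
    2 ^ n * Real.exp (-(27 / 20 * (l / 128) * n)) / 4 ≤ A * Real.exp (43 / 100 * l * n) * S →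
    (2 : ℝ) ^ ((1 - l) * n) ≤ S := by
  obtain ⟨n₁, hn₁⟩ := exists_nat_ge (Real.log (4 * A) * 1000 / l)
  refine ⟨n₁, fun n hn S hS0 hS => ?_⟩
  have hnR : Real.log (4 * A) * 1000 / l ≤ n := hn₁.trans (by exact_mod_cast hn)
  have hln : Real.log (4 * A) * 1000 ≤ l * n := by
    rw [div_le_iff₀ hl0] at hnR
    linarith
  have hlog : 0 ≤ Real.log (4 * A) := Real.log_nonneg (by linarith)
  have hlog2 : 0.6931471803 < Real.log 2 := Real.log_two_gt_d9
  have h2n : (2 : ℝ) ^ n = Real.exp (Real.log 2 * n) := by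
    rw [Real.exp_mul, Real.exp_log (by norm_num), Real.rpow_natCast]
  have h4 : 2 ^ n * Real.exp (-(27 / 20 * (l / 128) * n)) ≤
      (4 * A) * Real.exp (43 / 100 * l * n) * S := by linarith
  have h5 : (4 * A) = Real.exp (Real.log (4 * A)) := by
    rw [Real.exp_log (by positivity)]
  rw [h5, ← Real.exp_add, h2n, ← Real.exp_add] at h4
  have h6 : Real.exp (Real.log 2 * n + -(27 / 20 * (l / 128) * n)) *
      Real.exp (-(Real.log (4 * A) + 43 / 100 * l * n)) ≤ S := by
    have := mul_le_mul_of_nonneg_right h4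
      (Real.exp_pos (-(Real.log (4 * A) + 43 / 100 * l * n))).le
    refine this.trans (le_of_eq ?_)
    rw [mul_comm, ← mul_assoc, ← Real.exp_add, neg_add_cancel, Real.exp_zero, one_mul]
  rw [← Real.exp_add] at h6
  refine le_trans ?_ h6
  rw [Real.rpow_def_of_pos (by norm_num)]
  apply Real.exp_le_exp.mpr
  have hln0 : (0 : ℝ) ≤ l * n := by nlinarith
  nlinarith

/-- the loss of a factor `2 ^ (- c n)` -/
private theorem Fn3_c (l : ℝ) (n : ℕ) (N : ℝ)
    (hN : 2 ^ n * Real.exp (-(5 / 4 * (l / 128) * n)) / 2 ≤ N) :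
    2 ^ n * Real.exp (-(27 / 20 * (l / 128) * n)) / 2 ≤
      (2 : ℝ) ^ (-(l / 128 / (10 * Real.log 2) * n)) * N := by
  have hlog2 : 0 < Real.log 2 := Real.log_pos (by norm_num)
  have h2c : (2 : ℝ) ^ (-(l / 128 / (10 * Real.log 2) * n)) = Real.exp (-(l / 1280 * n)) := by
    rw [Real.rpow_def_of_pos (by norm_num)]
    congr 1
    field_simp
    ring
  rw [h2c]
  have hN' : Real.exp (-(l / 1280 * n)) * (2 ^ n * Real.exp (-(5 / 4 * (l / 128) * n)) / 2) ≤
      Real.exp (-(l / 1280 * n)) * N := mul_le_mul_of_nonneg_left hN (Real.exp_pos _).le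
  refine le_trans (le_of_eq ?_) hN'
  rw [show -(27 / 20 * (l / 128) * (n : ℝ)) = -(l / 1280 * n) + -(5 / 4 * (l / 128) * n) by ring,
    Real.exp_add]
  ring

/-- the arithmetic for programs -/
private theorem Fn3_p (l : ℝ) (hl0 : 0 < l) (n : ℕ) (hln : 3000 ≤ l * n) (N W : ℝ) (E : ℕ)
    (B S : ℝ) (hS : 1 ≤ S) (hE : (E : ℝ) ≤ 4 * (l / 8) * n)
    (hB : B = Real.exp ((7 / 12) * (l / 8) * n) * (32 / l))
    (hN : 2 ^ n * Real.exp (-(5 / 4 * (l / 128) * n)) / 2 ≤ N)
    (hW : W ≤ (1 - (2 : ℝ) ^ (-(l / 128 / (10 * Real.log 2) * n))) * N)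
    (h : N ≤ W + 2 * 2 ^ n * Real.exp (-(3 / 2 * (l / 128) * n)) + 8 * B * 2 ^ E * (3 * S)) :
    2 ^ n * Real.exp (-(27 / 20 * (l / 128) * n)) / 4 ≤
      (24 * (32 / l)) * Real.exp (43 / 100 * l * n) * S := by
  have hlog2 : 0.6931471803 < Real.log 2 := Real.log_two_gt_d9
  have hlog2' : Real.log 2 < 0.6931471808 := Real.log_two_lt_d9
  have h2E : (2 : ℝ) ^ E ≤ Real.exp (Real.log 2 * (l / 2 * n)) := by
    have : (2 : ℝ) ^ E = Real.exp (Real.log 2 * E) := by
      rw [Real.exp_mul, Real.exp_log (by norm_num), Real.rpow_natCast]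
    rw [this]
    apply Real.exp_le_exp.mpr
    apply mul_le_mul_of_nonneg_left _ (by linarith)
    linarith
  have hc := Fn3_c l n N hN
  have he2 : Real.exp (-(3 / 2 * (l / 128) * n)) ≤ Real.exp (-(27 / 20 * (l / 128) * n)) / 8 := by
    have h8 : (8 : ℝ) ≤ Real.exp 3 := by
      have h1 := Real.add_one_le_exp (1 : ℝ)
      have h3 : Real.exp 3 = Real.exp 1 ^ 3 := by
        rw [← Real.exp_nat_mul]; norm_num
      rw [h3]
      have : (2 : ℝ) ^ 3 ≤ Real.exp 1 ^ 3 := pow_le_pow_left₀ (by norm_num) (by linarith) 3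
      linarith
    rw [le_div_iff₀ (by norm_num)]
    calc Real.exp (-(3 / 2 * (l / 128) * n)) * 8 ≤ Real.exp (-(3 / 2 * (l / 128) * n)) * Real.exp 3 :=
          mul_le_mul_of_nonneg_left h8 (Real.exp_pos _).le
      _ = Real.exp (-(3 / 2 * (l / 128) * n) + 3) := by rw [Real.exp_add]
      _ ≤ _ := Real.exp_le_exp.mpr (by nlinarith)
  have h2n0 : (0 : ℝ) < 2 ^ n := by positivity
  have hmain : 2 ^ n * Real.exp (-(27 / 20 * (l / 128) * n)) / 4 ≤ 8 * B * 2 ^ E * (3 * S) := by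
    have : 2 * 2 ^ n * Real.exp (-(3 / 2 * (l / 128) * n)) ≤
        2 * 2 ^ n * (Real.exp (-(27 / 20 * (l / 128) * n)) / 8) :=
      mul_le_mul_of_nonneg_left he2 (by positivity)
    nlinarith
  have hB0 : 0 < B := by rw [hB]; positivity
  have h3 : 8 * B * 2 ^ E * (3 * S) ≤ 8 * B * Real.exp (Real.log 2 * (l / 2 * n)) * (3 * S) := by
    apply mul_le_mul_of_nonneg_right _ (by linarith)
    exact mul_le_mul_of_nonneg_left h2E (by positivity)
  refine hmain.trans (h3.trans ?_)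
  have h4 : 8 * B * Real.exp (Real.log 2 * (l / 2 * n)) * (3 * S) =
      (24 * (32 / l)) * Real.exp ((7 / 12) * (l / 8) * n + Real.log 2 * (l / 2 * n)) * S := by
    rw [hB, Real.exp_add]; ring
  rw [h4]
  apply mul_le_mul_of_nonneg_right _ (by linarith)
  apply mul_le_mul_of_nonneg_left _ (by positivity)
  apply Real.exp_le_exp.mpr
  nlinarith

/-- the arithmetic for the boxes -/
private theorem Fn3_b (l : ℝ) (hl0 : 0 < l) (n s m T p : ℕ) (hs : 1 ≤ s) (B X : ℝ)
    (hB : B = Real.exp ((7 / 12) * (l / 8) * n) * (32 / l))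
    (hT : (T : ℝ) ≤ 2 * (8 ^ (p + 1) * p * B))
    (h : 2 ^ n * Real.exp (-(27 / 20 * (l / 128) * n)) / 2 ≤ X)
    (hX : X ≤ ((s : ℝ) + 1) * (4 * (T : ℝ) ^ 3 * 2 ^ m)) :
    2 ^ n * Real.exp (-(27 / 20 * (l / 128) * n)) / 4 ≤
      (8 * (2 * (8 ^ (p + 1) * p * (32 / l))) ^ 3 + 1) * Real.exp (43 / 100 * l * n) * (s * 2 ^ m) := by
  have hs1 : (1 : ℝ) ≤ s := by exact_mod_cast hs
  have hT3 : (T : ℝ) ^ 3 ≤ (2 * (8 ^ (p + 1) * p * (32 / l))) ^ 3 * Real.exp (43 / 100 * l * n) := by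
    have h1 : (T : ℝ) ^ 3 ≤ (2 * (8 ^ (p + 1) * p * B)) ^ 3 :=
      pow_le_pow_left₀ (by positivity) hT 3
    refine h1.trans ?_
    have h2 : (2 * (8 ^ (p + 1) * p * B)) ^ 3 = (2 * (8 ^ (p + 1) * (p : ℝ) * (32 / l))) ^ 3 *
        Real.exp ((7 / 12) * (l / 8) * n) ^ 3 := by
      rw [hB]; ring
    rw [h2]
    apply mul_le_mul_of_nonneg_left _ (by positivity)
    rw [← Real.exp_nat_mul]
    apply Real.exp_le_exp.mpr
    push_cast
    have : (0 : ℝ) ≤ l * n := by positivity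
    nlinarith
  have h0 : (0 : ℝ) ≤ 2 ^ n * Real.exp (-(27 / 20 * (l / 128) * n)) := by positivity
  have h1 : 2 ^ n * Real.exp (-(27 / 20 * (l / 128) * n)) / 4 ≤
      ((s : ℝ) + 1) * (4 * (T : ℝ) ^ 3 * 2 ^ m) := by linarith
  refine h1.trans ?_
  have h2 : ((s : ℝ) + 1) * (4 * (T : ℝ) ^ 3 * 2 ^ m) ≤ (2 * s) * (4 * (T : ℝ) ^ 3 * 2 ^ m) :=
    mul_le_mul_of_nonneg_right (by linarith) (by positivity)
  refine h2.trans ?_
  have h3 : (2 * (s : ℝ)) * (4 * (T : ℝ) ^ 3 * 2 ^ m) = 8 * (T : ℝ) ^ 3 * (s * 2 ^ m) := by ring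
  rw [h3]
  apply mul_le_mul_of_nonneg_right _ (by positivity)
  have h4 : (0 : ℝ) ≤ Real.exp (43 / 100 * l * n) := (Real.exp_pos _).le
  nlinarith

/-- The joint final statement: one formula which is hard for programs, for DNNFs which imply it
and for d-DNNFs near it. -/
def St_Fn3 : Prop := ∃ C : ℝ, ∀ k : ℕ, 2 ≤ k → ∃ n₀ : ℕ, ∀ n : ℕ, n₀ ≤ n →
  ∃ φ : CNF n, φ.length ≤ 2 ^ k * n ∧ (∀ cl ∈ φ, cl.length ≤ k) ∧
    (2 : ℝ) ^ ((1 - C * (Real.log k ^ 2 / k)) * n) ≤ Nat.card {x : Fin n → Bool // Sat φ x} ∧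
    (∀ (K : Type) [Field K] (s m : ℕ) (P : Program K n s m) (r : Fin s),
      ((Nat.card {x : Fin n → Bool // Sat φ x ∧ P.val r x ≠ 1 ∨ ¬ Sat φ x ∧ P.val r x ≠ 0} : ℕ) : ℝ)
        ≤ (1 - (2 : ℝ) ^ (-(Real.log k ^ 2 / k * n))) * ((Nat.card {x : Fin n → Bool // Sat φ x} : ℕ) : ℝ) →
      (2 : ℝ) ^ ((1 - C * (Real.log k ^ 2 / k)) * n) ≤ s * 2 ^ m) ∧
    (∀ (q m s : ℕ) (D : Dnnf n q m s) (r : Fin s), (∀ x z, D.val r x z → Sat φ x) →
      (2 : ℝ) ^ (-(Real.log k ^ 2 / k * n)) * ((Nat.card {x : Fin n → Bool // Sat φ x} : ℕ) : ℝ)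
        ≤ ((Nat.card {x : Fin n → Bool // ∃ z, D.val r x z} : ℕ) : ℝ) →
      (2 : ℝ) ^ ((1 - C * (Real.log k ^ 2 / k)) * n) ≤ s * 2 ^ m) ∧
    (∀ (m s : ℕ) (D : Ddnnf n m s) (r : Fin s),
      ((Nat.card {x : Fin n → Bool // ¬ (D.val r x ↔ Sat φ x)} : ℕ) : ℝ)
        ≤ (1 - (2 : ℝ) ^ (-(Real.log k ^ 2 / k * n))) * ((Nat.card {x : Fin n → Bool // Sat φ x} : ℕ) : ℝ) →
      (2 : ℝ) ^ ((1 - C * (Real.log k ^ 2 / k)) * n) ≤ s * 2 ^ m)

theorem thm_Fn3 (h1 : St_Sum) (h2 : St_Bal) (h3 : St_Rn2) (h4 : St_Den) (h5 : St_Wlk)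
    (h6 : St_Wld) : St_Fn3 := by
  refine ⟨2400, fun k hk => ?_⟩
  have hk0 : (2 : ℝ) ≤ k := by exact_mod_cast hk
  have hk0' : (0 : ℝ) < k := by linarith
  have hlog2 : 0.6931471803 < Real.log 2 := Real.log_two_gt_d9
  have hlogk : Real.log 2 ≤ Real.log k := Real.log_le_log (by norm_num) hk0
  have hlk : 0 < Real.log k := by linarith
  have hlog2' : Real.log 2 < 0.6931471808 := Real.log_two_lt_d9
  set e : ℝ := Real.log k ^ 2 / k with he
  have he0 : 0 < e := by rw [he]; positivity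
  set l : ℝ := 2400 * e with hl'
  have hl : l = 2400 * Real.log k ^ 2 / k := by rw [hl', he]; ring
  have hl0 : 0 < l := by rw [hl']; positivity
  have hbig : ∀ n s m : ℕ, 1 ≤ s → (1 ≤ l ∨ n ≤ m) → (2 : ℝ) ^ ((1 - l) * n) ≤ s * 2 ^ m := by
    intro n s m hs hnm
    have hs1 : (1 : ℝ) ≤ s := by exact_mod_cast hs
    have h2' : (0 : ℝ) ≤ l * n := by positivity
    calc (2 : ℝ) ^ ((1 - l) * n) ≤ (2 : ℝ) ^ ((m : ℝ)) := by
            apply Real.rpow_le_rpow_of_exponent_le (by norm_num)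
            have h3 : (0 : ℝ) ≤ m := by positivity
            have h4 : (0 : ℝ) ≤ n := by positivity
            rcases hnm with h | h
            · nlinarith
            · have h1 : (n : ℝ) ≤ m := by exact_mod_cast h
              linarith
      _ = 2 ^ m := Real.rpow_natCast _ _
      _ ≤ s * 2 ^ m := le_mul_of_one_le_left (by positivity) hs1
  have hpos : ∀ (s : ℕ), Fin s → 1 ≤ s := fun s v => lt_of_le_of_lt (Nat.zero_le _) v.isLt
  rcases le_or_gt 1 l with hl1 | hl1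
  · refine ⟨0, fun n _ => ⟨[], by simp, by simp, ?_, ?_, ?_, ?_⟩⟩
    · have h1 : Nat.card {x : Fin n → Bool // Sat ([] : CNF n) x} = 2 ^ n := by
        rw [Nat.card_congr (Equiv.subtypeUnivEquiv (fun x => by simp [Sat]))]
        simp
      rw [h1]
      have h2' : (0 : ℝ) ≤ n := by positivity
      calc (2 : ℝ) ^ ((1 - l) * n) ≤ (2 : ℝ) ^ ((n : ℝ)) := by
            apply Real.rpow_le_rpow_of_exponent_le (by norm_num)
            nlinarith
        _ = 2 ^ n := Real.rpow_natCast _ _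
        _ = _ := by push_cast; rfl
    · intro K _ s m P v _
      exact hbig n s m (hpos s v) (Or.inl hl1)
    · intro q m s D v _ _
      exact hbig n s m (hpos s v) (Or.inl hl1)
    · intro m s D v _
      exact hbig n s m (hpos s v) (Or.inl hl1)
  · set p : ℕ := ⌈1280 / l⌉₊ with hp
    have hp1 : (p : ℝ) ≤ 1281 / l := by
      have h := (Nat.ceil_lt_add_one (show (0 : ℝ) ≤ 1280 / l by positivity)).le
      have h1 : (1 : ℝ) ≤ 1 / l := by rw [le_div_iff₀ hl0]; linarith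
      have h2 : (1281 : ℝ) / l = 1280 / l + 1 / l := by ring
      rw [hp]
      linarith
    have hp2 : 1280 / l ≤ (p : ℝ) := Nat.le_ceil _
    have hp3 : 1 ≤ p := by
      have : (1 : ℝ) ≤ p := by
        refine le_trans ?_ hp2
        rw [le_div_iff₀ hl0]; linarith
      exact_mod_cast this
    have hτ0 : 0 < l / 8 / (3 * Real.log (4 / (l / 8))) := by
      have h1 : (1 : ℝ) < 4 / (l / 8) := by
        rw [lt_div_iff₀ (by positivity)]; linarith
      have := Real.log_pos h1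
      positivity
    obtain ⟨hk1, hk2, hk3⟩ := Fn3_k k hk l hl hl1 p hp1
    obtain ⟨n₂, hn₂⟩ := h3 (l / 128) (l / 8) (l / 8 / (3 * Real.log (4 / (l / 8)))) k p
      (by positivity) (by linarith) (by linarith) hτ0 hk3
      (by
        rw [div_le_iff₀ hl0] at hp2
        linarith) hk hk1 hk2
    obtain ⟨n₃, hn₃⟩ := exists_nat_ge (3000 / l)
    have h32 : (1 : ℝ) ≤ 32 / l := by rw [le_div_iff₀ hl0]; linarith
    obtain ⟨n₁, hn₁⟩ := Fn3_ar l 1 hl0 le_rfl
    obtain ⟨n₄, hn₄⟩ := Fn3_ar l (24 * (32 / l)) hl0 (by linarith)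
    obtain ⟨n₅, hn₅⟩ := Fn3_ar l (8 * (2 * (8 ^ (p + 1) * p * (32 / l))) ^ 3 + 1) hl0
      (by
        have : (0 : ℝ) ≤ 8 * (2 * (8 ^ (p + 1) * p * (32 / l))) ^ 3 := by positivity
        linarith)
    refine ⟨max (max n₁ n₂) (max n₃ (max n₄ n₅)), ?_⟩
    intro n hn
    have hnn₁ : n₁ ≤ n := (le_max_left _ _).trans ((le_max_left _ _).trans hn)
    have hnn₂ : n₂ ≤ n := (le_max_right _ _).trans ((le_max_left _ _).trans hn)
    have hnn₃ : n₃ ≤ n := (le_max_left _ _).trans ((le_max_right _ _).trans hn)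
    have hnn₄ : n₄ ≤ n :=
      (le_max_left _ _).trans ((le_max_right _ _).trans ((le_max_right _ _).trans hn))
    have hnn₅ : n₅ ≤ n :=
      (le_max_right _ _).trans ((le_max_right _ _).trans ((le_max_right _ _).trans hn))
    have hnR : 3000 / l ≤ n := hn₃.trans (by exact_mod_cast hnn₃)
    have hln : 3000 ≤ l * n := by
      rw [div_le_iff₀ hl0] at hnR
      linarith
    set a : ℕ := ⌈l / 8 * n⌉₊ with ha
    set d : ℕ := ⌈l / 8 / (3 * Real.log (4 / (l / 8))) * n⌉₊ with hd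
    have hdn : d ≤ n := by
      rw [hd]
      apply Nat.ceil_le.mpr
      have : (0 : ℝ) ≤ n := by positivity
      nlinarith
    obtain ⟨ω, hω1, hω2, hω3⟩ :=
      hn₂ n hnn₂ a d ⌊l / 128 * n * 2 ^ k⌋₊ (Nat.le_ceil _) (Nat.le_ceil _) hdn rfl
    have hcN := Fn3_c l n _ hω1
    -- the explicit loss
    have hloss : (2 : ℝ) ^ (-(l / 128 / (10 * Real.log 2) * n)) ≤ (2 : ℝ) ^ (-(e * n)) := by
      apply Real.rpow_le_rpow_of_exponent_le (by norm_num)
      have h0 : (0 : ℝ) ≤ n := by positivity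
      have h1 : e ≤ l / 128 / (10 * Real.log 2) := by
        rw [div_div, le_div_iff₀ (by positivity), hl']
        nlinarith
      nlinarith
    have hloss2 : ∀ N : ℝ, 0 ≤ N → (1 - (2 : ℝ) ^ (-(e * n))) * N ≤
        (1 - (2 : ℝ) ^ (-(l / 128 / (10 * Real.log 2) * n))) * N := fun N hN =>
      mul_le_mul_of_nonneg_right (by linarith) hN
    -- the ball
    set B : ℝ := Real.exp ((7 / 12) * (l / 8) * n) * (32 / l) with hB
    have hB1 : 1 ≤ B := by
      rw [hB]
      have h1 : (1 : ℝ) ≤ Real.exp ((7 / 12) * (l / 8) * n) := Real.one_le_exp (by positivity)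
      nlinarith
    have h32' : 4 / (l / 8) = 32 / l := by
      field_simp
      norm_num
    have hbal : BallLe n d B := by
      intro x
      rw [Fn3_ball]
      refine (h2 n univ d (l / 32) (by positivity) (by linarith) x).trans ?_
      rw [hB, Finset.card_univ, Fintype.card_fin]
      have e1 : (1 + l / 32) ^ n ≤ Real.exp (l / 32 * n) := by
        have h := Real.add_one_le_exp (l / 32)
        calc (1 + l / 32) ^ n ≤ (Real.exp (l / 32)) ^ n :=
              pow_le_pow_left₀ (by positivity) (by linarith) n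
          _ = _ := by
              rw [← Real.exp_nat_mul]
              congr 1
              ring
      have hlogpos : 0 < Real.log (32 / l) := by
        apply Real.log_pos
        rw [lt_div_iff₀ hl0]; linarith
      have e2 : (1 / (l / 32)) ^ d ≤ Real.exp (l / 24 * n) * (32 / l) := by
        have h1 : 1 / (l / 32) = 32 / l := by
          field_simp
        rw [h1]
        have h2' : (32 / l) ^ d = Real.exp (Real.log (32 / l) * d) := by
          rw [Real.exp_mul, Real.exp_log (by positivity), Real.rpow_natCast]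
        rw [h2']
        have hd1 : (d : ℝ) ≤ l / 8 / (3 * Real.log (32 / l)) * n + 1 := by
          rw [hd, h32']
          exact (Nat.ceil_lt_add_one (by positivity)).le
        calc Real.exp (Real.log (32 / l) * d)
            ≤ Real.exp (Real.log (32 / l) * (l / 8 / (3 * Real.log (32 / l)) * n + 1)) :=
              Real.exp_le_exp.mpr (mul_le_mul_of_nonneg_left hd1 hlogpos.le)
          _ = Real.exp (l / 24 * n + Real.log (32 / l)) := by
              congr 1
              field_simp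
              ring
          _ = _ := by rw [Real.exp_add, Real.exp_log (by positivity)]
      calc (1 + l / 32) ^ n * (1 / (l / 32)) ^ d
          ≤ Real.exp (l / 32 * n) * (Real.exp (l / 24 * n) * (32 / l)) :=
            mul_le_mul e1 e2 (by positivity) (by positivity)
        _ = _ := by
            rw [← mul_assoc, ← Real.exp_add]
            congr 2
            ring
    -- the boxes
    set T : ℕ := ⌈8 ^ (p + 1) * p * B⌉₊ with hT
    have hpB : (1 : ℝ) ≤ 8 ^ (p + 1) * p * B := by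
      have e1 : (1 : ℝ) ≤ 8 ^ (p + 1) := one_le_pow₀ (by norm_num)
      have e2 : (1 : ℝ) ≤ p := by exact_mod_cast hp3
      have e3 : (1 : ℝ) ≤ 8 ^ (p + 1) * p := one_le_mul_of_one_le_of_one_le e1 e2
      exact one_le_mul_of_one_le_of_one_le e3 hB1
    have hT1 : 8 ^ (p + 1) * p * B ≤ (T : ℝ) := Nat.le_ceil _
    have hT2 : (T : ℝ) ≤ 2 * (8 ^ (p + 1) * p * B) := by
      have := (Nat.ceil_lt_add_one (show (0 : ℝ) ≤ 8 ^ (p + 1) * p * B by linarith)).le
      rw [hT]
      linarith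
    have hT3 : 1 ≤ T := by
      have : (1 : ℝ) ≤ T := hpB.trans hT1
      exact_mod_cast this
    have hden : Dense (Mod ω) T := h4 n p d (Mod ω) B T hp3 hB1 hω3 hbal hT1
    refine ⟨Fn3_cnf ω, ?_, ?_, ?_, ?_, ?_, ?_⟩
    · unfold Fn3_cnf
      rw [List.length_ofFn]
      have h1 : l / 128 * n * 2 ^ k ≤ (2 ^ k * n : ℕ) := by
        push_cast
        have : (0 : ℝ) ≤ 2 ^ k * n := by positivity
        nlinarith
      calc ⌊l / 128 * n * 2 ^ k⌋₊ ≤ ⌊((2 ^ k * n : ℕ) : ℝ)⌋₊ := Nat.floor_le_floor h1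
        _ = 2 ^ k * n := Nat.floor_natCast _
    · intro c hc
      unfold Fn3_cnf at hc
      rw [List.mem_ofFn] at hc
      obtain ⟨m, rfl⟩ := hc
      rw [List.length_ofFn]
    · simp only [Fn3_sat]
      apply hn₁ n hnn₁ _ (by positivity)
      have e1 : Real.exp (-(27 / 20 * (l / 128) * n)) ≤ Real.exp (-(5 / 4 * (l / 128) * n)) := by
        apply Real.exp_le_exp.mpr
        nlinarith
      have e2 : (1 : ℝ) ≤ Real.exp (43 / 100 * l * n) := Real.one_le_exp (by positivity)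
      have e3 : (0 : ℝ) ≤ ((Nat.card {x // Mod ω x} : ℕ) : ℝ) := by positivity
      have e4 : 2 ^ n * Real.exp (-(27 / 20 * (l / 128) * n)) ≤
          2 ^ n * Real.exp (-(5 / 4 * (l / 128) * n)) := mul_le_mul_of_nonneg_left e1 (by positivity)
      have e5 : (0 : ℝ) ≤ 2 ^ n * Real.exp (-(27 / 20 * (l / 128) * n)) := by positivity
      nlinarith
    · intro K _ s m P v hW
      have hs := hpos s v
      rcases le_or_gt n m with hnm | hnm
      · exact hbig n s m hs (Or.inr hnm)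
      have hs1 : (1 : ℝ) ≤ s := by exact_mod_cast hs
      have hm1 : (1 : ℝ) ≤ 2 ^ m := one_le_pow₀ (by norm_num)
      simp only [Fn3_sat] at hW
      replace hW := hW.trans (hloss2 _ (by positivity))
      set E : ℕ := ⌊4 * (l / 8) * n⌋₊ with hE
      have haE : 2 * a ≤ E := by
        rw [hE]
        apply Nat.le_floor
        push_cast
        have h := (Nat.ceil_lt_add_one (show (0 : ℝ) ≤ l / 8 * n by positivity)).le
        rw [ha]
        nlinarith
      have hEn : E ≤ n := by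
        rw [hE]
        have h1 : 4 * (l / 8) * n ≤ n := by
          have : (0 : ℝ) ≤ n := by positivity
          nlinarith
        calc ⌊4 * (l / 8) * n⌋₊ ≤ ⌊(n : ℝ)⌋₊ := Nat.floor_le_floor h1
          _ = n := Nat.floor_natCast _
      have hEr : (E : ℝ) ≤ 4 * (l / 8) * n := Nat.floor_le (by positivity)
      have hsum := h1 K n s m P v (Mod ω) a d (max E m) (Real.exp (-(3 / 2 * (l / 128) * n))) B
        (Real.exp_pos _).le hB1 (le_max_right _ _) (haE.trans (le_max_left _ _))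
        (max_le hEn hnm.le) hω2 hbal
      have hEm : (2 : ℝ) ^ (max E m) ≤ 2 ^ E * 2 ^ m := by
        rw [← pow_add]
        exact pow_le_pow_right₀ (by norm_num) (max_le (Nat.le_add_right _ _) (Nat.le_add_left _ _))
      have hlast : 8 * B * 2 ^ (max E m) * (2 * (s : ℝ) + 1) ≤ 8 * B * 2 ^ E * (3 * (s * 2 ^ m)) := by
        calc 8 * B * 2 ^ (max E m) * (2 * (s : ℝ) + 1) ≤ 8 * B * (2 ^ E * 2 ^ m) * (3 * s) := by
              apply mul_le_mul _ (by linarith) (by positivity) (by positivity)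
              exact mul_le_mul_of_nonneg_left hEm (by positivity)
          _ = _ := by ring
      have hS1 : (1 : ℝ) ≤ s * 2 ^ m := by nlinarith
      exact hn₄ n hnn₄ _ (by positivity)
        (Fn3_p l hl0 n hln _ _ E B _ hS1 hEr hB hω1 hW (by linarith))
    · intro q m s D v hD hW
      have hs := hpos s v
      simp only [Fn3_sat] at hD hW
      have hw := h5 n q m s D v (Mod ω) T hT3 hden hD
      have hw' : ((Nat.card {x // ∃ z, D.val v x z} : ℕ) : ℝ) ≤
          ((s : ℝ) + 1) * (4 * (T : ℝ) ^ 3 * 2 ^ m) := by exact_mod_cast hw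
      exact hn₅ n hnn₅ _ (by positivity)
        (Fn3_b l hl0 n s m T p hs B _ hB hT2 hcN
          ((mul_le_mul_of_nonneg_right hloss (by positivity)).trans (hW.trans hw')))
    · intro m s D v hW
      have hs := hpos s v
      simp only [Fn3_sat] at hW
      replace hW := hW.trans (hloss2 _ (by positivity))
      have hw := h6 n m s D v (Mod ω) T hT3 hden
      have hw' : ((Nat.card {x // Mod ω x} : ℕ) : ℝ) ≤
          ((Nat.card {x // ¬ (D.val v x ↔ Mod ω x)} : ℕ) : ℝ) +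
            ((s : ℝ) + 1) * (4 * (T : ℝ) ^ 3 * 2 ^ m) := by exact_mod_cast hw
      exact hn₅ n hnn₅ _ (by positivity)
        (Fn3_b l hl0 n s m T p hs B _ hB hT2 hcN (by linarith))

end Pool.Agent.STD
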