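import Pool.Agent.STD.Box

/-!
# DNNFs which imply `F`
-/

set_option autoImplicit false

namespace Pool.Agent.STD

open Finset Pool.Agent.STH

variable {n q m s : ℕ}

/-- the value of a node depends on its variables only -/
lemma dep (D : Dnnf n q m s) (v : Fin s) : ∀ x x' z z', (∀ i ∈ D.vars v, x i = x' i) →
    (∀ j ∈ D.aux v, z j = z' j) → (D.val v x z ↔ D.val v x' z') := by
  induction v using WellFoundedLT.induction with
  | ind v ih =>
    rcases D.ok v with h | ⟨a, b, ha, hb, _, _, hv, hx, h⟩ | ⟨a, b, ha, hb, hv, hx, h⟩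
    · exact h.2
    · intro x x' z z' h1 h2
      rw [h, h, ih a ha x x' z z' (fun i hi => h1 i (by rw [hv]; exact mem_union_left _ hi))
        (fun i hi => h2 i (by rw [hx]; exact mem_union_left _ hi)),
        ih b hb x x' z z' (fun i hi => h1 i (by rw [hv]; exact mem_union_right _ hi))
        (fun i hi => h2 i (by rw [hx]; exact mem_union_right _ hi))]
    · intro x x' z z' h1 h2
      rw [h, h, ih a ha x x' z z' (fun i hi => h1 i (by rw [hv]; exact mem_union_left _ hi))
        (fun i hi => h2 i (by rw [hx]; exact mem_union_left _ hi)),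
        ih b hb x x' z z' (fun i hi => h1 i (by rw [hv]; exact mem_union_right _ hi))
        (fun i hi => h2 i (by rw [hx]; exact mem_union_right _ hi))]

/-- every accepted pair of `v` which agrees with `(x, z)` off `v` is accepted by `r`. -/
def Inv (D : Dnnf n q m s) (r v : Fin s) (x : Pt n) (z : Pt q) : Prop :=
  D.val v x z ∧ ∀ y w, Off (D.vars v) x y → Off (D.aux v) z w → D.val v y w → D.val r y w

open Classical in
/-- the points which use the node `v` -/
noncomputable def Tv (D : Dnnf n q m s) (r v : Fin s) : Finset (Pt n) :=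
  univ.filter fun x => ∃ z, Inv D r v x z

open Classical in
/-- the points which use the edge from `u` to `c` -/
noncomputable def Te (D : Dnnf n q m s) (r u c : Fin s) : Finset (Pt n) :=
  univ.filter fun x => ∃ z, Inv D r u x z ∧ D.val c x z

lemma off_refl {N : ℕ} (R : Finset (Fin N)) (x : Pt N) : Off R x x := fun _ _ => rfl

lemma off_trans {N : ℕ} {R : Finset (Fin N)} {x y z : Pt N} (h : Off R x y) (h' : Off R y z) :
    Off R x z := fun i hi => (h' i hi).trans (h i hi)

lemma off_mono {N : ℕ} {R R' : Finset (Fin N)} (hR : R ⊆ R') {x y : Pt N} (h : Off R x y) :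
    Off R' x y := fun i hi => h i fun h' => hi (hR h')

lemma mem_Tv {D : Dnnf n q m s} {r v : Fin s} {x : Pt n} :
    x ∈ Tv D r v ↔ ∃ z, Inv D r v x z := by
  classical
  simp [Tv]

lemma mem_Te {D : Dnnf n q m s} {r u c : Fin s} {x : Pt n} :
    x ∈ Te D r u c ↔ ∃ z, Inv D r u x z ∧ D.val c x z := by
  classical
  simp [Te]

lemma mem_Tv_root {D : Dnnf n q m s} {r : Fin s} {x : Pt n} :
    x ∈ Tv D r r ↔ ∃ z, D.val r x z := by
  rw [mem_Tv]
  constructor
  · rintro ⟨z, hz⟩
    exact ⟨z, hz.1⟩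
  · rintro ⟨z, hz⟩
    exact ⟨z, hz, fun y w _ _ h => h⟩

lemma isBox_Tv (D : Dnnf n q m s) (r v : Fin s) : IsBox (D.vars v) (Tv D r v) := by
  intro x hx y hy
  rw [mem_Tv] at hx hy ⊢
  obtain ⟨z, hz⟩ := hx
  obtain ⟨z', hz'⟩ := hy
  refine ⟨mix (D.aux v) z z', ?_, ?_⟩
  · refine (dep D v _ _ _ _ ?_ ?_).1 hz.1
    · intro i hi
      simp [mix, hi]
    · intro i hi
      simp [mix, hi]
  · intro y' w h1 h2 h3
    exact hz'.2 y' w (off_trans (mix_off _ _ _) h1) (off_trans (mix_off _ _ _) h2) h3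

lemma Tv_F {D : Dnnf n q m s} {r v : Fin s} {F : Pt n → Prop} (h : ∀ x z, D.val r x z → F x)
    {x : Pt n} (hx : x ∈ Tv D r v) : F x := by
  rw [mem_Tv] at hx
  obtain ⟨z, hz⟩ := hx
  exact h x z (hz.2 x z (off_refl _ _) (off_refl _ _) hz.1)

open Classical in
lemma thin {D : Dnnf n q m s} {r v : Fin s} {F : Pt n → Prop} {S : ℕ} (hF : Dense F S)
    (h : ∀ x z, D.val r x z → F x) :
    cw (D.vars v) (Tv D r v) ≤ S ∨ cw (D.vars v)ᶜ (Tv D r v) ≤ S := by
  by_contra hc
  push Not at hc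
  have h1 := hF (D.vars v) (Tv D r v) (isBox_Tv D r v) hc.1 hc.2
  rw [filter_true_of_mem (fun x hx => Tv_F h hx)] at h1
  have h2 : (Tv D r v).card = 0 := by omega
  rw [card_eq_zero] at h2
  rw [h2] at hc
  simp [cw_def] at hc

/-- both inputs of a conjunction are used -/
lemma Inv_and {D : Dnnf n q m s} {r u a b : Fin s} (h1 : Disjoint (D.vars a) (D.vars b))
    (h2 : Disjoint (D.aux a) (D.aux b)) (h3 : D.vars u = D.vars a ∪ D.vars b)
    (h4 : D.aux u = D.aux a ∪ D.aux b) (h5 : ∀ x z, D.val u x z ↔ D.val a x z ∧ D.val b x z)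
    {x : Pt n} {z : Pt q} (h : Inv D r u x z) : Inv D r a x z := by
  refine ⟨((h5 x z).1 h.1).1, ?_⟩
  intro y w hy hw hv
  refine h.2 y w (off_mono (by rw [h3]; exact subset_union_left) hy)
    (off_mono (by rw [h4]; exact subset_union_left) hw) ((h5 y w).2 ⟨hv, ?_⟩)
  refine (dep D b _ _ _ _ ?_ ?_).1 ((h5 x z).1 h.1).2
  · intro i hi
    exact (hy i fun h' => disjoint_left.1 h1 h' hi).symm
  · intro i hi
    exact (hw i fun h' => disjoint_left.1 h2 h' hi).symm

lemma Inv_or {D : Dnnf n q m s} {r u c : Fin s} (h3 : D.vars c ⊆ D.vars u)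
    (h4 : D.aux c ⊆ D.aux u) (h5 : ∀ x z, D.val c x z → D.val u x z)
    {x : Pt n} {z : Pt q} (h : Inv D r u x z) (hc : D.val c x z) : Inv D r c x z := by
  refine ⟨hc, ?_⟩
  intro y w hy hw hv
  exact h.2 y w (off_mono h3 hy) (off_mono h4 hw) (h5 y w hv)

/-- the edge from a disjunction to a thin input is small. -/
lemma edge {D : Dnnf n q m s} {r u c : Fin s} {F : Pt n → Prop} {S : ℕ} (hS : 1 ≤ S)
    (hF : Dense F S) (h : ∀ x z, D.val r x z → F x) (h3 : D.vars c ⊆ D.vars u)
    (h4 : D.aux c ⊆ D.aux u) (h5 : ∀ x z, D.val c x z → D.val u x z)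
    (hc : cw (D.vars c) (Tv D r c) ≤ S) (hu : cw (D.vars u)ᶜ (Tv D r u) ≤ S) :
    (Te D r u c).card ≤ 2 * S ^ 3 := by
  classical
  have k1 : Te D r u c ⊆ Tv D r u := by
    intro x hx
    rw [mem_Te] at hx
    obtain ⟨z, hz, _⟩ := hx
    exact mem_Tv.2 ⟨z, hz⟩
  have k2 : Te D r u c ⊆ Tv D r c := by
    intro x hx
    rw [mem_Te] at hx
    obtain ⟨z, hz, hz'⟩ := hx
    exact mem_Tv.2 ⟨z, Inv_or h3 h4 h5 hz hz'⟩
  have k3 : Cl (D.vars u \ D.vars c) (Te D r u c) := by
    intro x hx y hy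
    rw [mem_Te] at hx ⊢
    obtain ⟨z, hz, hz'⟩ := hx
    have hyc : D.val c y z := by
      refine (dep D c _ _ _ _ ?_ (fun _ _ => rfl)).1 hz'
      intro i hi
      exact (hy i fun h' => (mem_sdiff.1 h').2 hi).symm
    refine ⟨z, ⟨h5 y z hyc, ?_⟩, hyc⟩
    intro y' w h1 h2 h6
    exact hz.2 y' w (off_trans (off_mono sdiff_subset hy) h1) h2 h6
  have hun : D.vars c ∪ (D.vars u)ᶜ ∪ (D.vars u \ D.vars c) = univ := by
    ext i
    simp only [mem_union, mem_compl, mem_sdiff, mem_univ, iff_true]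
    tauto
  rcases piece hS hF (X := D.vars c) (Y := (D.vars u)ᶜ) (E := D.vars u \ D.vars c)
    (T := Te D r u c) hun ((cw_mono _ k2).trans hc) ((cw_mono _ k1).trans hu) k3 with h6 | h6
  · rw [filter_true_of_mem (fun x hx => Tv_F h (k1 hx))] at h6
    omega
  · exact h6

lemma card_le_two (W : Finset (Fin n)) (T : Finset (Pt n)) : T.card ≤ cw W T * cw Wᶜ T := by
  calc T.card = cw (W ∪ Wᶜ) T := by rw [union_compl, cw_univ]
    _ ≤ _ := cw_union_le _ _ _

/-- **DNNFs which imply a formula without thick boxes are large.** -/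
theorem thm_Wlk : St_Wlk := by
  classical
  intro n q m s D r F S hS hF h
  have hG : Nat.card {x // ∃ z, D.val r x z} = (Tv D r r).card := by
    rw [Nat.card_eq_fintype_card, Fintype.card_subtype]
    congr 1
    ext x
    rw [mem_Tv_root]
    simp
  rw [hG]
  have hm : 1 ≤ 2 ^ m := Nat.one_le_two_pow
  have hS3 : S ≤ S ^ 3 := by
    calc S = S * 1 := by ring
      _ ≤ S * S ^ 2 := Nat.mul_le_mul_left _ (Nat.one_le_pow _ _ (by omega))
      _ = S ^ 3 := by ring
  by_cases hr : cw (D.vars r) (Tv D r r) ≤ S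
  · -- the root is thin
    have hcl : Cl (D.vars r)ᶜ (Tv D r r) := by
      intro x hx y hy
      rw [mem_Tv_root] at hx ⊢
      obtain ⟨z, hz⟩ := hx
      refine ⟨z, (dep D r _ _ _ _ ?_ (fun _ _ => rfl)).1 hz⟩
      intro i hi
      exact (hy i (by simpa using hi)).symm
    have h0 : cw (∅ : Finset (Fin n)) (Tv D r r) ≤ S := (cw_empty_le _).trans hS
    rcases piece hS hF (X := D.vars r) (Y := ∅) (E := (D.vars r)ᶜ) (T := Tv D r r)
      (by rw [union_empty, union_compl]) hr h0 hcl with h6 | h6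
    · rw [filter_true_of_mem (fun x hx => Tv_F h hx)] at h6
      omega
    · calc (Tv D r r).card ≤ 2 * S ^ 3 := h6
        _ = 1 * (2 * S ^ 3 * 1) := by ring
        _ ≤ (s + 1) * (4 * S ^ 3 * 2 ^ m) := by
            refine Nat.mul_le_mul (by omega) (Nat.mul_le_mul (by omega) hm)
  push Not at hr
  -- the stopping node
  set St : Fin s → Finset (Pt n) := fun u => (Tv D r u).filter fun x =>
    S < cw (D.vars u) (Tv D r u) ∧ ∀ w < u, x ∈ Tv D r w → cw (D.vars w) (Tv D r w) ≤ S
    with hSt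
  have hcov : Tv D r r ⊆ univ.biUnion St := by
    intro x hx
    set N : Finset (Fin s) := univ.filter fun u => x ∈ Tv D r u ∧ S < cw (D.vars u) (Tv D r u)
      with hN
    have hne : N.Nonempty := ⟨r, by simp [hN, hx, hr]⟩
    have hmin : N.min' hne ∈ univ ∧ x ∈ Tv D r (N.min' hne) ∧
        S < cw (D.vars (N.min' hne)) (Tv D r (N.min' hne)) := mem_filter.1 (N.min'_mem hne)
    rw [mem_biUnion]
    refine ⟨N.min' hne, mem_univ _, ?_⟩
    rw [hSt, mem_filter]
    refine ⟨hmin.2.1, hmin.2.2, ?_⟩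
    intro w hw hxw
    by_contra hc
    push Not at hc
    have : w ∈ N := by simp [hN, hxw, hc]
    exact absurd (N.min'_le w this) (not_le.2 hw)
  have hSt' : ∀ u, (St u).card ≤ 4 * S ^ 3 * 2 ^ m := by
    intro u
    rcases (St u).eq_empty_or_nonempty with h0 | ⟨x₀, hx₀⟩
    · rw [h0]; simp
    rw [hSt, mem_filter] at hx₀
    have hbu : cw (D.vars u)ᶜ (Tv D r u) ≤ S := by
      rcases thin (v := u) hF h with h1 | h1
      · omega
      · exact h1
    have hsub : (St u).card ≤ (Tv D r u).card := card_le_card (filter_subset _ _)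
    rcases D.ok u with hl | ⟨a, b, ha, hb, h1, h2, h3, h4, h5⟩ | ⟨a, b, ha, hb, h3, h4, h5⟩
    · calc (St u).card ≤ (Tv D r u).card := hsub
        _ ≤ cw (D.vars u) (Tv D r u) * cw (D.vars u)ᶜ (Tv D r u) := card_le_two _ _
        _ ≤ 2 ^ m * S := Nat.mul_le_mul ((cw_le_pow _ _).trans
            (Nat.pow_le_pow_right (by norm_num) hl.1)) hbu
        _ ≤ 2 ^ m * (4 * S ^ 3) := Nat.mul_le_mul_left _ (by omega)
        _ = 4 * S ^ 3 * 2 ^ m := by ring
    · -- conjunction
      have ka : Tv D r u ⊆ Tv D r a := by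
        intro x hx
        rw [mem_Tv] at hx ⊢
        obtain ⟨z, hz⟩ := hx
        exact ⟨z, Inv_and h1 h2 h3 h4 h5 hz⟩
      have kb : Tv D r u ⊆ Tv D r b := by
        intro x hx
        rw [mem_Tv] at hx ⊢
        obtain ⟨z, hz⟩ := hx
        exact ⟨z, Inv_and h1.symm h2.symm (by rw [h3, union_comm]) (by rw [h4, union_comm])
          (fun x z => by rw [h5]; exact and_comm) hz⟩
      have la := hx₀.2.2 a ha (ka hx₀.1)
      have lb := hx₀.2.2 b hb (kb hx₀.1)
      calc (St u).card ≤ (Tv D r u).card := hsub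
        _ ≤ cw (D.vars u) (Tv D r u) * cw (D.vars u)ᶜ (Tv D r u) := card_le_two _ _
        _ ≤ (cw (D.vars a) (Tv D r u) * cw (D.vars b) (Tv D r u)) * S := by
            refine Nat.mul_le_mul ?_ hbu
            rw [h3]
            exact cw_union_le _ _ _
        _ ≤ (S * S) * S := Nat.mul_le_mul_right _
            (Nat.mul_le_mul ((cw_mono _ ka).trans la) ((cw_mono _ kb).trans lb))
        _ = 1 * S ^ 3 * 1 := by ring
        _ ≤ 4 * S ^ 3 * 2 ^ m := Nat.mul_le_mul (Nat.mul_le_mul_right _ (by norm_num)) hm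
    · -- disjunction
      have hsub2 : St u ⊆ (if cw (D.vars a) (Tv D r a) ≤ S then Te D r u a else ∅) ∪
          (if cw (D.vars b) (Tv D r b) ≤ S then Te D r u b else ∅) := by
        intro x hx
        rw [hSt, mem_filter, mem_Tv] at hx
        obtain ⟨⟨z, hz⟩, _, hx2⟩ := hx
        rw [mem_union]
        rcases (h5 x z).1 hz.1 with hc | hc
        · left
          have hi : Inv D r a x z := Inv_or (by rw [h3]; exact subset_union_left)
            (by rw [h4]; exact subset_union_left) (fun x z hh => (h5 x z).2 (Or.inl hh)) hz hc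
          rw [if_pos (hx2 a ha (mem_Tv.2 ⟨z, hi⟩))]
          exact mem_Te.2 ⟨z, hz, hc⟩
        · right
          have hi : Inv D r b x z := Inv_or (by rw [h3]; exact subset_union_right)
            (by rw [h4]; exact subset_union_right) (fun x z hh => (h5 x z).2 (Or.inr hh)) hz hc
          rw [if_pos (hx2 b hb (mem_Tv.2 ⟨z, hi⟩))]
          exact mem_Te.2 ⟨z, hz, hc⟩
      have ea : (if cw (D.vars a) (Tv D r a) ≤ S then Te D r u a else ∅).card ≤ 2 * S ^ 3 := by
        split_ifs with hh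
        · exact edge hS hF h (by rw [h3]; exact subset_union_left)
            (by rw [h4]; exact subset_union_left) (fun x z hh => (h5 x z).2 (Or.inl hh)) hh hbu
        · simp
      have eb : (if cw (D.vars b) (Tv D r b) ≤ S then Te D r u b else ∅).card ≤ 2 * S ^ 3 := by
        split_ifs with hh
        · exact edge hS hF h (by rw [h3]; exact subset_union_right)
            (by rw [h4]; exact subset_union_right) (fun x z hh => (h5 x z).2 (Or.inr hh)) hh hbu
        · simp
      calc (St u).card ≤ _ := card_le_card hsub2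
        _ ≤ _ := card_union_le _ _
        _ ≤ 2 * S ^ 3 + 2 * S ^ 3 := add_le_add ea eb
        _ = 4 * S ^ 3 * 1 := by ring
        _ ≤ 4 * S ^ 3 * 2 ^ m := Nat.mul_le_mul_left _ hm
  calc (Tv D r r).card ≤ (univ.biUnion St).card := card_le_card hcov
    _ ≤ ∑ u, (St u).card := card_biUnion_le
    _ ≤ ∑ _u : Fin s, 4 * S ^ 3 * 2 ^ m := sum_le_sum fun u _ => hSt' u
    _ = s * (4 * S ^ 3 * 2 ^ m) := by simp
    _ ≤ (s + 1) * (4 * S ^ 3 * 2 ^ m) := Nat.mul_le_mul_right _ (by omega)

end Pool.Agent.STD
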